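import Pool.Agent.Helper30.TG.Ori

/-!
# Project TG, part CN1: the cell `Uc x g`
-/

set_option autoImplicit false

namespace Pool.Agent.Helper9.TG.CN1

open Pool.Agent.Helper30.TriFace Pool.Agent.Helper30.TG
open scoped Classical
open Filter Topology

variable {p : ℕ → ℝ × ℝ} {n : ℕ}

theorem inj (hp : Pos p n) {i j : ℕ} (hi : i < n) (hj : j < n) (h : (p i).1 = (p j).1) :
    i = j := by
  rcases lt_trichotomy i j with h1 | h1 | h1
  · exact absurd h (hp.2 i j h1 hj)
  · exact h1
  · exact absurd h.symm (hp.2 j i h1 hi)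

/-- a vertex is not on an open chord -/
theorem not_on (hp : Pos p n) {k : ℕ} (hk : k < n) {g : ℕ × ℕ} (hg : g ∈ EE n) :
    ¬ On p g (p k) := by
  rintro ⟨h1, h2⟩
  by_cases hk1 : k = g.1
  · rw [hk1] at h2; simp at h2
  by_cases hk2 : k = g.2
  · rw [hk2] at h2; simp at h2
  exact (ori p n hp).2.1 g hg k hk hk1 hk2 h1

/-- the point is on the line -/
theorem RG_ln (hp : Pos p n) {x : ℝ × ℝ} {g : ℕ × ℕ} (h : RG p n x g) :
    ln (sl p) (ic p) g x.1 = x.2 := by
  obtain ⟨hg, h⟩ := h
  rcases h with ⟨h, -⟩ | ⟨h, -⟩ | h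
  · rw [h]; exact ln_left g
  · rw [h]; exact ln_right hp hg
  · exact h.1.symm

/-- right-going chords of a vertex -/
theorem RG_vertex (hp : Pos p n) {k : ℕ} (hk : k < n) {g : ℕ × ℕ} (h : RG p n (p k) g) :
    ∃ l < n, l ≠ k ∧ (p k).1 < (p l).1 ∧ ((g.1 = k ∧ g.2 = l) ∨ (g.1 = l ∧ g.2 = k)) := by
  obtain ⟨hg, h⟩ := h
  have hg' := mem_EE.1 hg
  rcases h with ⟨h, h'⟩ | ⟨h, h'⟩ | h
  · have hk1 : k = g.1 := inj hp hk (by omega) (by rw [h])
    exact ⟨g.2, hg'.2, by omega, h', Or.inl ⟨hk1.symm, rfl⟩⟩
  · have hk1 : k = g.2 := inj hp hk (by omega) (by rw [h])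
    exact ⟨g.1, by omega, by omega, h', Or.inr ⟨rfl, hk1.symm⟩⟩
  · exact absurd h (not_on hp hk hg)

/-- the side function is affine -/
theorem ln_sub (e : ℕ × ℕ) (s t : ℝ) :
    ln (sl p) (ic p) e s - ln (sl p) (ic p) e t = sl p e * (s - t) := by
  unfold ln; ring

/-- two lines through the point `x` -/
theorem two_lines {e g : ℕ × ℕ} {x : ℝ × ℝ} (he : ln (sl p) (ic p) e x.1 = x.2)
    (hg : ln (sl p) (ic p) g x.1 = x.2) (s : ℝ) :
    ln (sl p) (ic p) g s - ln (sl p) (ic p) e s = (sl p g - sl p e) * (s - x.1) := by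
  have h1 := ln_sub (p := p) e s x.1
  have h2 := ln_sub (p := p) g s x.1
  rw [he] at h1
  rw [hg] at h2
  linarith

/-- the value at an interior point of a chord -/
theorem on_comb (hp : Pos p n) {g : ℕ × ℕ} (hg : g ∈ EE n) {x : ℝ × ℝ} (h : On p g x) :
    ∃ u v : ℝ, 0 < u ∧ 0 < v ∧ ∀ e : ℕ × ℕ, x.2 - ln (sl p) (ic p) e x.1 =
      u * ((p g.1).2 - ln (sl p) (ic p) e (p g.1).1) +
      v * ((p g.2).2 - ln (sl p) (ic p) e (p g.2).1) := by
  obtain ⟨h1, h2⟩ := h
  have hne := ne_of_EE hp hg
  set A := (p g.1).1 with hA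
  set B := (p g.2).1 with hB
  have hl : (p g.1).2 = ln (sl p) (ic p) g A := (ln_left g).symm
  have hr : (p g.2).2 = ln (sl p) (ic p) g B := (ln_right hp hg).symm
  refine ⟨(B - x.1) / (B - A), (x.1 - A) / (B - A), ?_, ?_, ?_⟩
  · rcases lt_or_gt_of_ne hne with h0 | h0
    · refine div_pos_of_neg_of_neg ?_ h0
      by_contra hc
      push Not at hc
      nlinarith
    · refine div_pos ?_ h0
      by_contra hc
      push Not at hc
      nlinarith
  · rcases lt_or_gt_of_ne hne with h0 | h0
    · refine div_pos_of_neg_of_neg ?_ h0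
      by_contra hc
      push Not at hc
      nlinarith
    · refine div_pos ?_ h0
      by_contra hc
      push Not at hc
      nlinarith
  · intro e
    rw [h1, hl, hr]
    unfold ln
    field_simp
    ring

theorem main : S_CN1 := by
  intro p n hn hp x hx g g' hg hg' hgg
  have hgl := RG_ln hp hg
  have hgl' := RG_ln hp hg'
  -- the points
  have hev : ∀ᶠ δ : ℝ in 𝓝[>] 0, ∀ e ∈ EE n,
      ((e ∈ Uc p n x g → ln (sl p) (ic p) g (x.1 + δ) + δ ^ 2 < ln (sl p) (ic p) e (x.1 + δ)) ∧
      (e ∉ Uc p n x g → ln (sl p) (ic p) e (x.1 + δ) < ln (sl p) (ic p) g (x.1 + δ) + δ ^ 2)) := by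
    refine (Finset.eventually_all (EE n)).2 fun e he => ?_
    have hc1 : Tendsto (fun δ : ℝ => ln (sl p) (ic p) g (x.1 + δ) + δ ^ 2
        - ln (sl p) (ic p) e (x.1 + δ)) (𝓝[>] 0) (𝓝 (x.2 - ln (sl p) (ic p) e x.1)) := by
      have : ContinuousAt (fun δ : ℝ => ln (sl p) (ic p) g (x.1 + δ) + δ ^ 2
        - ln (sl p) (ic p) e (x.1 + δ)) 0 := by
        unfold ln
        fun_prop
      have h := this.tendsto
      simp only [add_zero, hgl] at h
      have h0 : x.2 + (0 : ℝ) ^ 2 - ln (sl p) (ic p) e x.1 = x.2 - ln (sl p) (ic p) e x.1 := by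
        ring
      rw [h0] at h
      exact h.mono_left nhdsWithin_le_nhds
    rcases lt_trichotomy x.2 (ln (sl p) (ic p) e x.1) with h1 | h1 | h1
    · have hmem : e ∈ Uc p n x g := Finset.mem_filter.2 ⟨he, Or.inl h1⟩
      filter_upwards [hc1.eventually (gt_mem_nhds (show x.2 - ln (sl p) (ic p) e x.1 < 0 by
        linarith))] with δ hδ
      exact ⟨fun _ => by linarith, fun h => absurd hmem h⟩
    · by_cases hs : sl p g < sl p e
      · have hmem : e ∈ Uc p n x g := Finset.mem_filter.2 ⟨he, Or.inr ⟨h1, hs⟩⟩
        have h2 : ∀ᶠ δ : ℝ in 𝓝[>] 0, δ ∈ Set.Ioo (0 : ℝ) (sl p e - sl p g) :=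
          Ioo_mem_nhdsGT (by linarith)
        filter_upwards [h2] with δ hδ
        refine ⟨fun _ => ?_, fun h => absurd hmem h⟩
        have h3 := two_lines (p := p) (e := g) (g := e) hgl h1.symm (x.1 + δ)
        have h4 : (sl p e - sl p g) * (x.1 + δ - x.1) = (sl p e - sl p g) * δ := by ring
        rw [h4] at h3
        nlinarith [hδ.1, hδ.2]
      · have hmem : e ∉ Uc p n x g := by
          intro h
          rcases (Finset.mem_filter.1 h).2 with h' | h'
          · linarith
          · exact hs h'.2
        filter_upwards [self_mem_nhdsWithin] with δ hδ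
        have hδ' : 0 < δ := hδ
        refine ⟨fun h => absurd h hmem, fun _ => ?_⟩
        have h3 := two_lines (p := p) (e := g) (g := e) hgl h1.symm (x.1 + δ)
        have h4 : (sl p e - sl p g) * (x.1 + δ - x.1) = (sl p e - sl p g) * δ := by ring
        rw [h4] at h3
        push Not at hs
        nlinarith [mul_nonneg (sub_nonneg.2 hs) hδ'.le, pow_pos hδ' 2]
    · have hmem : e ∉ Uc p n x g := by
        intro h
        rcases (Finset.mem_filter.1 h).2 with h' | h'
        · linarith
        · linarith [h'.1]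
      filter_upwards [hc1.eventually (lt_mem_nhds (show 0 < x.2 - ln (sl p) (ic p) e x.1 by
        linarith))] with δ hδ
      exact ⟨fun h => absurd h hmem, fun _ => by linarith⟩
  have hlim : ∀ ε : ℝ, 0 < ε → ∃ q ∈ Cel (sl p) (ic p) (EE n) (Uc p n x g),
      |q.1 - x.1| < ε ∧ |q.2 - x.2| < ε := by
    intro ε hε
    have h1 : ∀ᶠ δ : ℝ in 𝓝[>] 0, |δ| < ε := by
      have : ContinuousAt (fun δ : ℝ => |δ|) 0 := by fun_prop
      have h := this.tendsto
      simp only [abs_zero] at h
      exact (h.mono_left nhdsWithin_le_nhds).eventually (gt_mem_nhds hε)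
    have h2 : ∀ᶠ δ : ℝ in 𝓝[>] 0, |ln (sl p) (ic p) g (x.1 + δ) + δ ^ 2 - x.2| < ε := by
      have : ContinuousAt (fun δ : ℝ => |ln (sl p) (ic p) g (x.1 + δ) + δ ^ 2 - x.2|) 0 := by
        unfold ln
        fun_prop
      have h := this.tendsto
      have h0 : |ln (sl p) (ic p) g (x.1 + 0) + (0 : ℝ) ^ 2 - x.2| = 0 := by
        rw [add_zero, hgl]; simp
      rw [h0] at h
      exact (h.mono_left nhdsWithin_le_nhds).eventually (gt_mem_nhds hε)
    obtain ⟨δ, hδ1, hδ2, hδ3⟩ := (hev.and (h1.and h2)).exists
    refine ⟨(x.1 + δ, ln (sl p) (ic p) g (x.1 + δ) + δ ^ 2), fun e he => hδ1 e he, ?_, hδ3⟩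
    simpa using hδ2
  refine ⟨?_, hlim⟩
  unfold Fc
  rw [Finset.mem_filter, Finset.mem_powerset]
  refine ⟨Finset.filter_subset _ _, ?_, ?_⟩
  · obtain ⟨q, hq, -⟩ := hlim 1 one_pos
    exact ⟨q, hq⟩
  · intro e he
    have he' : e ∈ EE n := (Finset.mem_filter.1 he).1
    have heE := mem_EE.1 he'
    have hmemU : e ∈ Uc p n x g ↔ (x.2 < ln (sl p) (ic p) e x.1 ∨
        (x.2 = ln (sl p) (ic p) e x.1 ∧ sl p g < sl p e)) := by
      unfold Uc
      rw [Finset.mem_filter]
      exact ⟨fun h => h.2, fun h => ⟨he', h⟩⟩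
    have hor := (ori p n hp).2.2 e he
    -- both alternatives for Up are exclusive
    obtain ⟨m, hm, hm1, hm2⟩ : ∃ m < n, m ≠ e.1 ∧ m ≠ e.2 := by
      by_cases h0 : e.1 = 0
      · by_cases h1 : e.2 = 1
        · exact ⟨2, by omega, by omega, by omega⟩
        · exact ⟨1, by omega, by omega, by omega⟩
      · exact ⟨0, by omega, by omega, by omega⟩
    rw [hmemU]
    unfold VX at hx
    rw [Finset.mem_union] at hx
    rcases hx with hx | hx
    · -- crossing points
      obtain ⟨⟨g1, g2⟩, hgg2, rfl⟩ := Finset.mem_image.1 hx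
      rw [Finset.mem_filter, Finset.mem_product] at hgg2
      obtain ⟨⟨hg1, hg2⟩, hne12, hon1, hon2⟩ := hgg2
      simp only at hg1 hg2 hne12 hon1 hon2
      set x := ipt p g1 g2 with hxdef
      -- a chord different from `e` through `x`
      obtain ⟨c, hc, hce, hon⟩ : ∃ c ∈ EE n, c ≠ e ∧ On p c x := by
        by_cases h : g1 = e
        · exact ⟨g2, hg2, fun h' => hne12 (h.trans h'.symm), hon2⟩
        · exact ⟨g1, hg1, h, hon1⟩
      obtain ⟨u, v, hu, hv, huv⟩ := on_comb hp hc hon
      have hcE := mem_EE.1 hc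
      have hend : (c.1 ≠ e.1 ∧ c.1 ≠ e.2) ∨ (c.2 ≠ e.1 ∧ c.2 ≠ e.2) := by
        by_contra hcon
        apply hce
        have h1 : c.1 = e.1 ∧ c.2 = e.2 := by omega
        exact Prod.ext h1.1 h1.2
      rcases hor with hup | hdown
      · have hle : ∀ k < n, (p k).2 - ln (sl p) (ic p) e (p k).1 ≤ 0 := by
          intro k hk
          by_cases hk1 : k = e.1
          · rw [hk1, ln_left]; simp
          by_cases hk2 : k = e.2
          · rw [hk2, ln_right hp he']; simp
          have := hup k hk hk1 hk2
          linarith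
        have hlt : x.2 - ln (sl p) (ic p) e x.1 < 0 := by
          rw [huv e]
          rcases hend with h | h
          · have h1 := hup c.1 (by omega) h.1 h.2
            have h2 := hle c.2 (by omega)
            nlinarith
          · have h1 := hup c.2 (by omega) h.1 h.2
            have h2 := hle c.1 (by omega)
            nlinarith
        exact ⟨fun _ => hup, fun _ => Or.inl (by linarith)⟩
      · have hle : ∀ k < n, 0 ≤ (p k).2 - ln (sl p) (ic p) e (p k).1 := by
          intro k hk
          by_cases hk1 : k = e.1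
          · rw [hk1, ln_left]; simp
          by_cases hk2 : k = e.2
          · rw [hk2, ln_right hp he']; simp
          have := hdown k hk hk1 hk2
          linarith
        have hlt : 0 < x.2 - ln (sl p) (ic p) e x.1 := by
          rw [huv e]
          rcases hend with h | h
          · have h1 := hdown c.1 (by omega) h.1 h.2
            have h2 := hle c.2 (by omega)
            nlinarith
          · have h1 := hdown c.2 (by omega) h.1 h.2
            have h2 := hle c.1 (by omega)
            nlinarith
        refine ⟨fun h => ?_, fun h => ?_⟩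
        · rcases h with h | h
          · linarith
          · linarith [h.1]
        · have h1 := h m hm hm1 hm2
          have h2 := hdown m hm hm1 hm2
          linarith
    · -- vertices
      obtain ⟨k, hk, rfl⟩ := Finset.mem_image.1 hx
      rw [Finset.mem_range] at hk
      by_cases hke : k ≠ e.1 ∧ k ≠ e.2
      · rcases hor with hup | hdown
        · exact ⟨fun _ => hup, fun _ => Or.inl (hup k hk hke.1 hke.2)⟩
        · have h1 := hdown k hk hke.1 hke.2
          refine ⟨fun h => ?_, fun h => ?_⟩
          · rcases h with h | h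
            · linarith
            · linarith [h.1]
          · have h2 := h k hk hke.1 hke.2
            linarith
      · -- `e` goes through the vertex
        have hel : ln (sl p) (ic p) e (p k).1 = (p k).2 := by
          have : k = e.1 ∨ k = e.2 := by tauto
          rcases this with h | h
          · rw [h]; exact ln_left e
          · rw [h]; exact ln_right hp he'
        obtain ⟨l, hl, hlk, hkl, hlg⟩ := RG_vertex hp hk hg
        obtain ⟨l', hl', hlk', hkl', hlg'⟩ := RG_vertex hp hk hg'
        have hpl : ln (sl p) (ic p) g (p l).1 = (p l).2 := by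
          rcases hlg with h | h
          · rw [← h.2]; exact ln_right hp hg.1
          · rw [← h.1]; exact ln_left g
        have hpl' : ln (sl p) (ic p) g' (p l').1 = (p l').2 := by
          rcases hlg' with h | h
          · rw [← h.2]; exact ln_right hp hg'.1
          · rw [← h.1]; exact ln_left g'
        have t1 := two_lines (p := p) (e := e) (g := g) hel hgl (p l).1
        have t2 := two_lines (p := p) (e := e) (g := g') hel hgl' (p l').1
        rw [hpl] at t1
        rw [hpl'] at t2
        have hd : 0 < (p l).1 - (p k).1 := by linarith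
        have hd' : 0 < (p l').1 - (p k).1 := by linarith
        have hgE := mem_EE.1 hg.1
        have hgE' := mem_EE.1 hg'.1
        by_cases hle : l = e.1 ∨ l = e.2
        · -- `g = e`
          have hge : g = e := by
            have h1 : g.1 = e.1 ∧ g.2 = e.2 := by omega
            exact Prod.ext h1.1 h1.2
          have hle' : l' ≠ e.1 ∧ l' ≠ e.2 := by
            by_contra hcon
            have h1 : g'.1 = e.1 ∧ g'.2 = e.2 := by omega
            have h2 : g' = e := Prod.ext h1.1 h1.2
            rw [hge, h2] at hgg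
            exact lt_irrefl _ hgg
          rw [← hge] at t2 ⊢
          refine ⟨fun h => ?_, fun h => ?_⟩
          · rcases h with h | h
            · rw [hgl] at h; exact absurd h (lt_irrefl _)
            · exact absurd h.2 (lt_irrefl _)
          · have h1 := h l' hl' (by rw [hge]; exact hle'.1) (by rw [hge]; exact hle'.2)
            have h2 := mul_pos (sub_pos.2 hgg) hd'
            linarith
        · push Not at hle
          rcases hor with hup | hdown
          · have h1 := hup l hl hle.1 hle.2
            have h2 : sl p g < sl p e := by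
              by_contra hcon
              push Not at hcon
              have := mul_nonneg (sub_nonneg.2 hcon) hd.le
              linarith
            exact ⟨fun _ => hup, fun _ => Or.inr ⟨hel.symm, h2⟩⟩
          · have h1 := hdown l hl hle.1 hle.2
            have h2 : sl p e < sl p g := by
              by_contra hcon
              push Not at hcon
              have := mul_nonneg (sub_nonneg.2 hcon) hd.le
              nlinarith
            refine ⟨fun h => ?_, fun h => ?_⟩
            · rcases h with h | h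
              · rw [hel] at h; exact absurd h (lt_irrefl _)
              · linarith [h.2]
            · have h3 := h l hl hle.1 hle.2
              linarith

end Pool.Agent.Helper9.TG.CN1
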