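import Pool.Agent.Helper9.TG.CN1

/-!
# Project TG, part CN3: the pairs at the crossing points
-/

set_option autoImplicit false

namespace Pool.Agent.Helper9.TG.CN3

open Pool.Agent.Helper30.TriFace Pool.Agent.Helper30.TG Pool.Agent.Helper9.TG.CN1
open scoped Classical
open Filter Topology

variable {p : ℕ → ℝ × ℝ} {n : ℕ}

theorem main (hB : S_BND) : S_CN3 := by
  intro p n hn hp
  obtain ⟨hD, -⟩ := hB p n hn hp
  refine ⟨?_, ?_⟩
  · rw [Finset.disjoint_left]
    intro x hx hx'
    obtain ⟨⟨g1, g2⟩, hgg2, rfl⟩ := Finset.mem_image.1 hx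
    rw [Finset.mem_filter, Finset.mem_product] at hgg2
    obtain ⟨⟨hg1, hg2⟩, hne12, hon1, hon2⟩ := hgg2
    obtain ⟨k, hk, hk2⟩ := Finset.mem_image.1 hx'
    rw [Finset.mem_range] at hk
    simp only at hon1 hk2
    rw [← hk2] at hon1
    exact not_on hp hk hg1 hon1
  · set W := (WW p n).filter fun xg => xg.1 ∈ Xc p n with hW
    have hfib : W.card = ∑ x ∈ Xc p n, (W.filter fun xg => xg.1 = x).card :=
      Finset.card_eq_sum_card_fiberwise (f := Prod.fst) fun xg hxg => (Finset.mem_filter.1 hxg).2
    rw [hfib]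
    refine Finset.sum_le_sum fun x hx => ?_
    set T := (EE n).filter fun e => On p e x with hT
    have hmu : mu p n x = T.card := rfl
    rw [hmu]
    rcases T.eq_empty_or_nonempty with h0 | h0
    · rw [h0]; simp
    obtain ⟨m, hm, hmax⟩ := T.exists_max_image (sl p) h0
    rw [← Finset.card_erase_of_mem hm]
    refine Finset.card_le_card_of_injOn (fun g => (x, g)) ?_ ?_
    · intro g hg
      rw [Finset.mem_coe, Finset.mem_erase] at hg
      obtain ⟨hgm, hgT⟩ := hg
      have hg' := Finset.mem_filter.1 hgT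
      have hm' := Finset.mem_filter.1 hm
      have hslt : sl p g < sl p m := by
        refine lt_of_le_of_ne (hmax g hgT) fun heq => ?_
        refine hD g hg'.1 m hm'.1 hgm heq ?_
        have h1 := hg'.2.1
        have h2 := hm'.2.1
        unfold ln at h1 h2
        rw [heq] at h1
        linarith
      rw [Finset.mem_coe, Finset.mem_filter, Finset.mem_filter]
      refine ⟨⟨?_, ?_⟩, rfl⟩
      · unfold WW
        rw [Finset.mem_filter, Finset.mem_product]
        refine ⟨⟨?_, hg'.1⟩, ?_⟩
        · unfold VX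
          exact Finset.mem_union_left _ hx
        · exact ⟨⟨hg'.1, Or.inr (Or.inr hg'.2)⟩, m, ⟨hm'.1, Or.inr (Or.inr hm'.2)⟩, hslt⟩
      · exact hx
    · intro g _ g' _ h
      exact (Prod.ext_iff.1 h).2

end Pool.Agent.Helper9.TG.CN3
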