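import Pool.Agent.Helper9.TG.CN1

/-!
# Project TG, part CN4: the cells `Uc x g` are different
-/

set_option autoImplicit false

namespace Pool.Agent.Helper9.TG.CN4

open Pool.Agent.Helper30.TriFace Pool.Agent.Helper30.TG Pool.Agent.Helper9.TG.CN1
open scoped Classical
open Filter Topology

variable {p : ℕ → ℝ × ℝ} {n : ℕ}

theorem mem_Uc {x : ℝ × ℝ} {g e : ℕ × ℕ} : e ∈ Uc p n x g ↔ e ∈ EE n ∧
    (x.2 < ln (sl p) (ic p) e x.1 ∨ (x.2 = ln (sl p) (ic p) e x.1 ∧ sl p g < sl p e)) := by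
  unfold Uc
  rw [Finset.mem_filter]

/-- the cell is to the right of `x`, above `g` and below `g'` -/
theorem cel_right (hp : Pos p n) {x : ℝ × ℝ} {g g' : ℕ × ℕ} (hg : RG p n x g)
    (hg' : RG p n x g') (hgg : sl p g < sl p g') {q : ℝ × ℝ}
    (hq : q ∈ Cel (sl p) (ic p) (EE n) (Uc p n x g)) :
    x.1 < q.1 ∧ ln (sl p) (ic p) g q.1 < q.2 ∧ q.2 < ln (sl p) (ic p) g' q.1 := by
  have hgl := RG_ln hp hg
  have hgl' := RG_ln hp hg'
  have h1 : g ∉ Uc p n x g := by
    rw [mem_Uc]
    rintro ⟨-, h | h⟩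
    · rw [hgl] at h; exact lt_irrefl _ h
    · exact lt_irrefl _ h.2
  have h2 : g' ∈ Uc p n x g := mem_Uc.2 ⟨hg'.1, Or.inr ⟨hgl'.symm, hgg⟩⟩
  have h3 := (hq g hg.1).2 h1
  have h4 := (hq g' hg'.1).1 h2
  have h5 := two_lines (p := p) (e := g) (g := g') hgl hgl' q.1
  refine ⟨?_, h3, h4⟩
  by_contra hcon
  push Not at hcon
  have := mul_nonneg (sub_pos.2 hgg).le (sub_nonneg.2 hcon)
  nlinarith

theorem main (hB : S_BND) (h1 : S_CN1) : S_CN4 := by
  intro p n hn hp
  obtain ⟨hD, -⟩ := hB p n hn hp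
  refine Finset.card_le_card_of_injOn (fun xg => Uc p n xg.1 xg.2) ?_ ?_
  · intro xg hxg
    obtain ⟨hxg1, hg, g', hg', hgg⟩ := Finset.mem_filter.1 hxg
    exact (h1 p n hn hp xg.1 (Finset.mem_product.1 hxg1).1 xg.2 g' hg hg' hgg).1
  · rintro ⟨x, g⟩ hxg ⟨y, k⟩ hyk hU
    obtain ⟨hxg1, hg, g', hg', hgg⟩ := Finset.mem_filter.1 hxg
    obtain ⟨hyk1, hk, k', hk', hkk⟩ := Finset.mem_filter.1 hyk
    simp only at hg hg' hgg hk hk' hkk hU
    have hx := (Finset.mem_product.1 hxg1).1
    have hy := (Finset.mem_product.1 hyk1).1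
    simp only at hx hy
    have hxl := (h1 p n hn hp x hx g g' hg hg' hgg).2
    have hyl := (h1 p n hn hp y hy k k' hk hk' hkk).2
    -- the abscissas
    have e1 : x.1 = y.1 := by
      apply le_antisymm
      · refine le_of_forall_pos_lt_add fun ε hε => ?_
        obtain ⟨q, hq, hq1, -⟩ := hyl ε hε
        rw [← hU] at hq
        have h2 := (cel_right hp hg hg' hgg hq).1
        rw [abs_lt] at hq1
        linarith [hq1.2]
      · refine le_of_forall_pos_lt_add fun ε hε => ?_
        obtain ⟨q, hq, hq1, -⟩ := hxl ε hε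
        rw [hU] at hq
        have h2 := (cel_right hp hk hk' hkk hq).1
        rw [abs_lt] at hq1
        linarith [hq1.2]
    have hgl := RG_ln hp hg
    have hgl' := RG_ln hp hg'
    have hkl := RG_ln hp hk
    have hkl' := RG_ln hp hk'
    -- the ordinates
    have e2 : x.2 = y.2 := by
      have hb : ∀ (c : ℕ × ℕ), ln (sl p) (ic p) c x.1 = x.2 → ∀ ε : ℝ, 0 < ε →
          ∃ δ : ℝ, 0 < δ ∧ δ ≤ ε ∧ ∀ s : ℝ, |s - y.1| < δ →
            |ln (sl p) (ic p) c s - x.2| ≤ ε := by
        intro c hc ε hε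
        refine ⟨min ε (ε / (|sl p c| + 1)), by positivity, min_le_left _ _, fun s hs => ?_⟩
        have h3 := ln_sub (p := p) c s x.1
        rw [hc, e1] at h3
        rw [h3, abs_mul]
        have h4 : |s - y.1| ≤ ε / (|sl p c| + 1) := (hs.trans_le (min_le_right _ _)).le
        calc |sl p c| * |s - y.1| ≤ (|sl p c| + 1) * (ε / (|sl p c| + 1)) := by
              refine mul_le_mul (by linarith) h4 (abs_nonneg _) (by positivity)
          _ = ε := by field_simp
      apply le_antisymm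
      · refine le_of_forall_pos_le_add fun ε hε => ?_
        obtain ⟨δ, hδ, hδε, hδs⟩ := hb g hgl (ε / 2) (by positivity)
        obtain ⟨q, hq, hq1, hq2⟩ := hyl δ hδ
        rw [← hU] at hq
        have h2 := (cel_right hp hg hg' hgg hq).2.1
        have h3 := hδs q.1 hq1
        rw [abs_le] at h3
        rw [abs_lt] at hq2
        linarith [h3.1, hq2.2]
      · refine le_of_forall_pos_le_add fun ε hε => ?_
        obtain ⟨δ, hδ, hδε, hδs⟩ := hb g' hgl' (ε / 2) (by positivity)
        obtain ⟨q, hq, hq1, hq2⟩ := hyl δ hδ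
        rw [← hU] at hq
        have h2 := (cel_right hp hg hg' hgg hq).2.2
        have h3 := hδs q.1 hq1
        rw [abs_le] at h3
        rw [abs_lt] at hq2
        linarith [h3.2, hq2.1]
    have hxy : x = y := Prod.ext e1 e2
    subst hxy
    -- the slopes
    have e3 : sl p g = sl p k := by
      apply le_antisymm
      · by_contra hcon
        push Not at hcon
        have h2 : g ∈ Uc p n x k := mem_Uc.2 ⟨hg.1, Or.inr ⟨hgl.symm, hcon⟩⟩
        rw [← hU] at h2
        rcases (mem_Uc.1 h2).2 with h | h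
        · rw [hgl] at h; exact lt_irrefl _ h
        · exact lt_irrefl _ h.2
      · by_contra hcon
        push Not at hcon
        have h2 : k ∈ Uc p n x g := mem_Uc.2 ⟨hk.1, Or.inr ⟨hkl.symm, hcon⟩⟩
        rw [hU] at h2
        rcases (mem_Uc.1 h2).2 with h | h
        · rw [hkl] at h; exact lt_irrefl _ h
        · exact lt_irrefl _ h.2
    have e4 : g = k := by
      by_contra hne
      refine hD g hg.1 k hk.1 hne e3 ?_
      have h2 : ln (sl p) (ic p) g x.1 = ln (sl p) (ic p) k x.1 := by rw [hgl, hkl]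
      unfold ln at h2
      rw [e3] at h2
      linarith
    rw [e4]

end Pool.Agent.Helper9.TG.CN4
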