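import Pool.Agent.Helper30.TG.Spec

/-!
# Project TG, part CNT: the number of cells
-/

set_option autoImplicit false

namespace Pool.Agent.Helper9.TG.CNT

open Pool.Agent.Helper30.TriFace Pool.Agent.Helper30.TG
open scoped Classical

theorem main (h2 : S_CN2) (h3 : S_CN3) (h4 : S_CN4) : S_CNT := by
  intro p n hn hp
  obtain ⟨hd, h3'⟩ := h3 p n hn hp
  have h2' := h2 p n hn hp
  have h4' := h4 p n hn hp
  refine le_trans (add_le_add h2' h3') (le_trans ?_ h4')
  rw [← Finset.card_union_of_disjoint]
  · refine Finset.card_le_card ?_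
    intro xg h
    rw [Finset.mem_union, Finset.mem_filter, Finset.mem_filter] at h
    rcases h with h | h
    · exact h.1
    · exact h.1
  · rw [Finset.disjoint_left]
    intro xg h h'
    exact (Finset.disjoint_left.1 hd) (Finset.mem_filter.1 h').2 (Finset.mem_filter.1 h).2

end Pool.Agent.Helper9.TG.CNT
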