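import Mathlib
set_option autoImplicit false
set_option linter.unusedSectionVars false

/-! The resolvent `(1 - (i/C) A)⁻¹` of a self-adjoint operator. -/

namespace TG9

open ContinuousLinearMap
open scoped InnerProductSpace

variable {H : Type*} [NormedAddCommGroup H] [InnerProductSpace ℂ H] [CompleteSpace H]

/-- the operator `1 - (i/C) A` -/
noncomputable def den (C : ℝ) (A : H →L[ℂ] H) : H →L[ℂ] H := 1 - (Complex.I / (C : ℂ)) • A

theorem den_apply (C : ℝ) (A : H →L[ℂ] H) (x : H) :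
    den C A x = x - (Complex.I / (C : ℂ)) • A x := by
  simp [den]

theorem den_unit {C : ℝ} (hC : 0 < C) {A : H →L[ℂ] H} (hA : IsSelfAdjoint A) :
    IsUnit (den C A) := by
  have hC0 : (C : ℂ) ≠ 0 := by exact_mod_cast hC.ne'
  have h1 : (-(Complex.I * C) : ℂ) ∉ spectrum ℂ A := by
    intro h
    have h2 := hA.mem_spectrum_eq_re h
    have h3 := congrArg Complex.im h2
    simp at h3
    exact hC.ne' h3
  have h2 : IsUnit (algebraMap ℂ (H →L[ℂ] H) (-(Complex.I * C)) - A) := by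
    by_contra h
    exact h1 h
  have h3 : den C A = (Units.mk0 (Complex.I / (C : ℂ)) (div_ne_zero Complex.I_ne_zero hC0)) •
      (algebraMap ℂ (H →L[ℂ] H) (-(Complex.I * C)) - A) := by
    ext x
    rw [den_apply, Units.smul_mk0, _root_.smul_apply, _root_.sub_apply,
      smul_sub]
    congr 1
    rw [Algebra.algebraMap_eq_smul_one, _root_.smul_apply,
      one_apply_eq_self, smul_smul]
    have : Complex.I / (C : ℂ) * (-(Complex.I * C)) = 1 := by
      field_simp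
      simp
    rw [this, one_smul]
  rw [h3]
  exact h2.smul _

theorem inner_real {A : H →L[ℂ] H} (hA : IsSelfAdjoint A) (x : H) :
    (⟪x, A x⟫_ℂ).im = 0 := by
  have h1 : ⟪A x, x⟫_ℂ = ⟪x, A x⟫_ℂ := by
    rw [← ContinuousLinearMap.adjoint_inner_right, hA.adjoint_eq]
  have h2 := inner_conj_symm (𝕜 := ℂ) x (A x)
  rw [h1] at h2
  have h3 := congrArg Complex.im h2
  rw [Complex.conj_im] at h3
  linarith

theorem den_norm {C : ℝ} (hC : 0 < C) {A : H →L[ℂ] H} (hA : IsSelfAdjoint A) (x : H) :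
    ‖den C A x‖ ^ 2 = ‖x‖ ^ 2 + ‖A x‖ ^ 2 / C ^ 2 := by
  rw [den_apply, @norm_sub_sq ℂ]
  have h1 : RCLike.re ⟪x, (Complex.I / (C : ℂ)) • A x⟫_ℂ = 0 := by
    rw [inner_smul_right]
    have h2 := inner_real hA x
    have h3 : (Complex.I / (C : ℂ)) = ((C⁻¹ : ℝ) : ℂ) * Complex.I := by
      push_cast; rw [div_eq_mul_inv, mul_comm]
    rw [h3]
    simp only [RCLike.re_eq_complex_re, Complex.mul_re, Complex.mul_im, Complex.ofReal_re,
      Complex.ofReal_im, Complex.I_re, Complex.I_im, h2]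
    ring
  rw [h1, norm_smul, norm_div, Complex.norm_I, Complex.norm_real, Real.norm_of_nonneg hC.le]
  field_simp
  ring

/-- the resolvent `(1 - (i/C) A)⁻¹` -/
noncomputable def rz (C : ℝ) (A : H →L[ℂ] H) : H →L[ℂ] H := Ring.inverse (den C A)

theorem den_rz {C : ℝ} (hC : 0 < C) {A : H →L[ℂ] H} (hA : IsSelfAdjoint A) (x : H) :
    den C A (rz C A x) = x := by
  have h := Ring.mul_inverse_cancel _ (den_unit hC hA)
  have h2 := congrArg (fun T : H →L[ℂ] H => T x) h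
  exact h2

theorem rz_den {C : ℝ} (hC : 0 < C) {A : H →L[ℂ] H} (hA : IsSelfAdjoint A) (x : H) :
    rz C A (den C A x) = x := by
  have h := Ring.inverse_mul_cancel _ (den_unit hC hA)
  have h2 := congrArg (fun T : H →L[ℂ] H => T x) h
  exact h2

theorem rz_id {C : ℝ} (hC : 0 < C) {A : H →L[ℂ] H} (hA : IsSelfAdjoint A) (x : H) :
    ‖x‖ ^ 2 = ‖rz C A x‖ ^ 2 + ‖A (rz C A x)‖ ^ 2 / C ^ 2 := by
  have h := den_norm hC hA (rz C A x)
  rw [den_rz hC hA] at h
  exact h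

theorem rz_le {C : ℝ} (hC : 0 < C) {A : H →L[ℂ] H} (hA : IsSelfAdjoint A) (x : H) :
    ‖rz C A x‖ ≤ ‖x‖ := by
  have h := rz_id hC hA x
  have h2 : 0 ≤ ‖A (rz C A x)‖ ^ 2 / C ^ 2 := by positivity
  exact le_of_sq_le_sq (by linarith) (norm_nonneg _)

theorem A_rz_le {C : ℝ} (hC : 0 < C) {A : H →L[ℂ] H} (hA : IsSelfAdjoint A) (x : H) :
    ‖A (rz C A x)‖ ≤ C * ‖x‖ := by
  have h := rz_id hC hA x
  have h2 : 0 ≤ ‖rz C A x‖ ^ 2 := by positivity
  have h3 : ‖A (rz C A x)‖ ^ 2 / C ^ 2 ≤ ‖x‖ ^ 2 := by linarith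
  rw [div_le_iff₀ (by positivity)] at h3
  refine le_of_sq_le_sq ?_ (by positivity)
  linarith [mul_pow C ‖x‖ 2]

theorem one_sub_rz {C : ℝ} (hC : 0 < C) {A : H →L[ℂ] H} (hA : IsSelfAdjoint A) (x : H) :
    x - rz C A x = -((Complex.I / (C : ℂ)) • A (rz C A x)) := by
  have h := den_rz hC hA x
  rw [den_apply] at h
  nth_rewrite 1 [← h]
  abel

theorem one_sub_rz' {C : ℝ} (hC : 0 < C) {A : H →L[ℂ] H} (hA : IsSelfAdjoint A) (x : H) :
    x - rz C A x = -((Complex.I / (C : ℂ)) • rz C A (A x)) := by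
  have h := rz_den hC hA x
  rw [den_apply, map_sub, map_smul] at h
  nth_rewrite 1 [← h]
  abel

theorem A_rz {C : ℝ} (hC : 0 < C) {A : H →L[ℂ] H} (hA : IsSelfAdjoint A) (x : H) :
    A (rz C A x) = rz C A (A x) := by
  have h := (one_sub_rz hC hA x).symm.trans (one_sub_rz' hC hA x)
  have hC0 : (C : ℂ) ≠ 0 := by exact_mod_cast hC.ne'
  exact smul_right_injective H (div_ne_zero Complex.I_ne_zero hC0) (neg_injective h)

theorem norm_IC {C : ℝ} (hC : 0 < C) : ‖(Complex.I / (C : ℂ))‖ = 1 / C := by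
  rw [norm_div, Complex.norm_I, Complex.norm_real, Real.norm_of_nonneg hC.le]

theorem one_sub_rz_le {C : ℝ} (hC : 0 < C) {A : H →L[ℂ] H} (hA : IsSelfAdjoint A) (x : H) :
    ‖x - rz C A x‖ ≤ ‖x‖ := by
  rw [one_sub_rz hC hA, norm_neg, norm_smul, norm_IC hC]
  have h := A_rz_le hC hA x
  rw [one_div, inv_mul_le_iff₀ hC]
  exact h

theorem one_sub_rz_le' {C : ℝ} (hC : 0 < C) {A : H →L[ℂ] H} (hA : IsSelfAdjoint A) (x : H) :
    ‖x - rz C A x‖ ≤ ‖A x‖ / C := by
  rw [one_sub_rz' hC hA, norm_neg, norm_smul, norm_IC hC]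
  have h := rz_le hC hA (A x)
  rw [one_div, inv_mul_eq_div]
  exact div_le_div_of_nonneg_right h hC.le

theorem inner_rz {C : ℝ} (hC : 0 < C) {A : H →L[ℂ] H} (hA : IsSelfAdjoint A) (x y : H) :
    ⟪rz C A x, y⟫_ℂ = ⟪x, rz C (-A) y⟫_ℂ := by
  have hA' : IsSelfAdjoint (-A) := hA.neg
  have h0 : ∀ u v : H, ⟪den C A u, v⟫_ℂ = ⟪u, den C (-A) v⟫_ℂ := by
    intro u v
    rw [den_apply, den_apply, inner_sub_left, inner_sub_right, inner_smul_left, inner_smul_right,
      _root_.neg_apply, inner_neg_right]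
    have h1 : ⟪A u, v⟫_ℂ = ⟪u, A v⟫_ℂ := by
      rw [← ContinuousLinearMap.adjoint_inner_right, hA.adjoint_eq]
    rw [h1, map_div₀, Complex.conj_I, Complex.conj_ofReal]
    ring
  have h1 := h0 (rz C A x) (rz C (-A) y)
  rw [den_rz hC hA, den_rz hC hA'] at h1
  exact h1.symm

theorem rz_adjoint {C : ℝ} (hC : 0 < C) {A : H →L[ℂ] H} (hA : IsSelfAdjoint A) :
    ContinuousLinearMap.adjoint (rz C A) = rz C (-A) := by
  symm
  rw [ContinuousLinearMap.eq_adjoint_iff]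
  intro x y
  have := inner_rz hC hA.neg x y
  rwa [neg_neg] at this

theorem rz_sub {C : ℝ} (hC : 0 < C) {A B : H →L[ℂ] H} (hA : IsSelfAdjoint A)
    (hB : IsSelfAdjoint B) (x : H) :
    rz C A x - rz C B x = (Complex.I / (C : ℂ)) • rz C A ((A - B) (rz C B x)) := by
  have h1 : rz C A (den C B (rz C B x)) = rz C A x := by rw [den_rz hC hB]
  have h2 : rz C A (den C A (rz C B x)) = rz C B x := rz_den hC hA _
  rw [← h1]
  nth_rewrite 2 [← h2]
  rw [← map_sub (rz C A), ← map_smul (rz C A)]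
  congr 1
  rw [den_apply, den_apply, _root_.sub_apply, smul_sub]
  abel

theorem rz_sub_le {C : ℝ} (hC : 0 < C) {A B : H →L[ℂ] H} (hA : IsSelfAdjoint A)
    (hB : IsSelfAdjoint B) (x : H) :
    ‖rz C A x - rz C B x‖ ≤ ‖(A - B) (rz C B x)‖ / C := by
  rw [rz_sub hC hA hB, norm_smul, norm_IC hC, one_div, inv_mul_eq_div]
  exact div_le_div_of_nonneg_right (rz_le hC hA _) hC.le

end TG9
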