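import Mathlib
import Pool.Agent.Helper9.TG.Res
set_option autoImplicit false
set_option linter.unusedSectionVars false

/-! Pointwise algebra: the splitting of a signed sum of self-adjoint operators. -/

namespace TG9

open ContinuousLinearMap Finset
open scoped InnerProductSpace

variable {H : Type*} [NormedAddCommGroup H] [InnerProductSpace ℂ H] [CompleteSpace H]
variable {J : Type*} [Fintype J] [DecidableEq J]

/-- the full signed sum -/
noncomputable def tot (s : J → ℝ) (u : J → H →L[ℂ] H) : H →L[ℂ] H := ∑ j, (s j : ℂ) • u j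

/-- the signed sum without `j` -/
noncomputable def off (s : J → ℝ) (u : J → H →L[ℂ] H) (j : J) : H →L[ℂ] H :=
  ∑ i ∈ univ.erase j, (s i : ℂ) • u i

theorem tot_off (s : J → ℝ) (u : J → H →L[ℂ] H) (j : J) :
    tot s u = (s j : ℂ) • u j + off s u j := by
  unfold tot off
  exact (Finset.add_sum_erase univ (fun j => (s j : ℂ) • u j) (mem_univ j)).symm

theorem off_congr {s s' : J → ℝ} {j : J} (h : ∀ i, i ≠ j → s i = s' i) (u : J → H →L[ℂ] H) :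
    off s u j = off s' u j := by
  unfold off
  refine Finset.sum_congr rfl fun i hi => ?_
  rw [h i (Finset.ne_of_mem_erase hi)]

theorem sa_smul {A : H →L[ℂ] H} (hA : IsSelfAdjoint A) (r : ℝ) :
    IsSelfAdjoint ((r : ℂ) • A) := by
  rw [IsSelfAdjoint, star_smul, hA.star_eq, Complex.star_def, Complex.conj_ofReal]

theorem sa_sum {κ : Type*} (t : Finset κ) (f : κ → H →L[ℂ] H) (h : ∀ k ∈ t, IsSelfAdjoint (f k)) :
    IsSelfAdjoint (∑ k ∈ t, f k) := by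
  rw [IsSelfAdjoint, star_sum]
  exact Finset.sum_congr rfl fun k hk => (h k hk).star_eq

theorem off_sa (s : J → ℝ) {u : J → H →L[ℂ] H} (hu : ∀ j, IsSelfAdjoint (u j)) (j : J) :
    IsSelfAdjoint (off s u j) := sa_sum _ _ fun i _ => sa_smul (hu i) _

theorem tot_sa (s : J → ℝ) {u : J → H →L[ℂ] H} (hu : ∀ j, IsSelfAdjoint (u j)) :
    IsSelfAdjoint (tot s u) := sa_sum _ _ fun i _ => sa_smul (hu i) _

/-- the bounded piece -/
noncomputable def Xj (C : ℝ) (s : J → ℝ) (u : J → H →L[ℂ] H) (j : J) : H →L[ℂ] H :=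
  (rz C (-(off s u j))) ∘L (u j) ∘L (rz C (off s u j))

/-- the small piece -/
noncomputable def Hj (C : ℝ) (s : J → ℝ) (u : J → H →L[ℂ] H) (j : J) : H →L[ℂ] H :=
  u j - Xj C s u j

theorem Xj_congr (C : ℝ) {s s' : J → ℝ} {j : J} (h : ∀ i, i ≠ j → s i = s' i)
    (u : J → H →L[ℂ] H) : Xj C s u j = Xj C s' u j := by
  unfold Xj; rw [off_congr h]

theorem Hj_congr (C : ℝ) {s s' : J → ℝ} {j : J} (h : ∀ i, i ≠ j → s i = s' i)
    (u : J → H →L[ℂ] H) : Hj C s u j = Hj C s' u j := by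
  unfold Hj; rw [Xj_congr C h]

variable {C : ℝ} (hC : 0 < C) (s : J → ℝ) {u : J → H →L[ℂ] H} (hu : ∀ j, IsSelfAdjoint (u j))

include hC hu in
theorem Xj_sa (j : J) : IsSelfAdjoint (Xj C s u j) := by
  have h := off_sa s hu j
  rw [ContinuousLinearMap.isSelfAdjoint_iff']
  unfold Xj
  rw [ContinuousLinearMap.adjoint_comp, ContinuousLinearMap.adjoint_comp, rz_adjoint hC h,
    rz_adjoint hC h.neg, neg_neg, (hu j).adjoint_eq]
  rfl

include hC hu in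
theorem Hj_sa (j : J) : IsSelfAdjoint (Hj C s u j) := (hu j).sub (Xj_sa hC s hu j)

include hC hu in
theorem inner_Xj (j : J) (x y : H) :
    ⟪Xj C s u j x, y⟫_ℂ = ⟪u j (rz C (off s u j) x), rz C (off s u j) y⟫_ℂ := by
  have h := off_sa s hu j
  unfold Xj
  rw [ContinuousLinearMap.comp_apply, ContinuousLinearMap.comp_apply, inner_rz hC h.neg, neg_neg]

variable (hs : ∀ j, |s j| = 1)
  (hN : ∀ x : H, ∑ j, ‖u j x‖ ^ 2 ≤ ‖x‖ ^ 2)

include hN in
theorem one_le_op (j : J) (x : H) : ‖u j x‖ ≤ ‖x‖ := by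
  refine le_of_sq_le_sq ((Finset.single_le_sum (f := fun j => ‖u j x‖ ^ 2)
    (fun _ _ => sq_nonneg _) (mem_univ j)).trans (hN x)) (norm_nonneg _)

include hC hu hs in
theorem r_le (j : J) (x : H) :
    ‖rz C (off s u j) x - rz C (tot s u) x‖ ≤ ‖u j (rz C (tot s u) x)‖ / C := by
  refine (rz_sub_le hC (off_sa s hu j) (tot_sa s hu) x).trans (le_of_eq ?_)
  congr 1
  rw [tot_off s u j]
  have : off s u j - ((s j : ℂ) • u j + off s u j) = -((s j : ℂ) • u j) := by abel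
  rw [this, _root_.neg_apply, norm_neg, _root_.smul_apply, norm_smul, Complex.norm_real,
    Real.norm_eq_abs, hs j, one_mul]

include hN in
theorem cs_bound (x y : H) : ∑ j, ‖u j x‖ * ‖u j y‖ ≤ ‖x‖ * ‖y‖ := by
  have h := Finset.sum_mul_sq_le_sq_mul_sq univ (fun j => ‖u j x‖) (fun j => ‖u j y‖)
  refine le_of_sq_le_sq (h.trans ?_) (by positivity)
  rw [mul_pow]
  exact mul_le_mul (hN x) (hN y) (Finset.sum_nonneg fun _ _ => sq_nonneg _) (sq_nonneg _)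

include hC hu hs hN in
theorem D_bound (hC1 : 1 ≤ C) (x y : H) :
    ‖(∑ j, (s j : ℂ) * ⟪Xj C s u j x, y⟫_ℂ) -
      ⟪tot s u (rz C (tot s u) x), rz C (tot s u) y⟫_ℂ‖ ≤ 3 / C * (‖x‖ * ‖y‖) := by
  set P := rz C (tot s u) with hP
  have e0 : ⟪tot s u (P x), P y⟫_ℂ = ∑ j, (s j : ℂ) * ⟪u j (P x), P y⟫_ℂ := by
    unfold tot
    rw [_root_.sum_apply, sum_inner]
    refine Finset.sum_congr rfl fun j _ => ?_
    rw [_root_.smul_apply, inner_smul_left, Complex.conj_ofReal]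
  rw [e0, ← Finset.sum_sub_distrib]
  have h1 : ∀ j ∈ (univ : Finset J), ‖(s j : ℂ) * ⟪Xj C s u j x, y⟫_ℂ -
      (s j : ℂ) * ⟪u j (P x), P y⟫_ℂ‖ ≤ 3 / C * (‖u j (P x)‖ * ‖u j (P y)‖) := by
    intro j _
    rw [← mul_sub, norm_mul, Complex.norm_real, Real.norm_eq_abs, hs j, one_mul,
      inner_Xj hC s hu]
    set Q := rz C (off s u j) with hQ
    have rx := r_le hC s hu hs j x
    have ry := r_le hC s hu hs j y
    rw [← hP, ← hQ] at rx ry
    have e1 : ⟪u j (Q x), Q y⟫_ℂ - ⟪u j (P x), P y⟫_ℂ = ⟪u j (P x), Q y - P y⟫_ℂ +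
        ⟪Q x - P x, u j (P y)⟫_ℂ + ⟪u j (Q x - P x), Q y - P y⟫_ℂ := by
      have e2 : ⟪Q x - P x, u j (P y)⟫_ℂ = ⟪u j (Q x - P x), P y⟫_ℂ := by
        rw [← ContinuousLinearMap.adjoint_inner_right, (hu j).adjoint_eq]
      rw [e2]
      simp only [map_sub, inner_sub_left, inner_sub_right]
      ring
    rw [e1]
    have n1 : ‖⟪u j (P x), Q y - P y⟫_ℂ‖ ≤ ‖u j (P x)‖ * (‖u j (P y)‖ / C) :=
      (norm_inner_le_norm _ _).trans (mul_le_mul_of_nonneg_left ry (norm_nonneg _))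
    have n2 : ‖⟪Q x - P x, u j (P y)⟫_ℂ‖ ≤ (‖u j (P x)‖ / C) * ‖u j (P y)‖ :=
      (norm_inner_le_norm _ _).trans (mul_le_mul_of_nonneg_right rx (norm_nonneg _))
    have n3 : ‖⟪u j (Q x - P x), Q y - P y⟫_ℂ‖ ≤ (‖u j (P x)‖ / C) * (‖u j (P y)‖ / C) := by
      refine (norm_inner_le_norm _ _).trans (mul_le_mul ?_ ry (norm_nonneg _) (by positivity))
      exact (one_le_op hN j _).trans rx
    have n4 : (‖u j (P x)‖ / C) * (‖u j (P y)‖ / C) ≤ (‖u j (P x)‖ * ‖u j (P y)‖) / C := by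
      rw [div_mul_div_comm]
      refine div_le_div_of_nonneg_left (by positivity) hC ?_
      nlinarith
    refine (norm_add₃_le).trans ?_
    have e3 : 3 / C * (‖u j (P x)‖ * ‖u j (P y)‖) = ‖u j (P x)‖ * (‖u j (P y)‖ / C) +
      (‖u j (P x)‖ / C) * ‖u j (P y)‖ + (‖u j (P x)‖ * ‖u j (P y)‖) / C := by ring
    rw [e3]
    linarith
  refine (norm_sum_le _ _).trans ((Finset.sum_le_sum h1).trans ?_)
  rw [← Finset.mul_sum]
  refine mul_le_mul_of_nonneg_left ?_ (by positivity)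
  refine (cs_bound hN (P x) (P y)).trans ?_
  exact mul_le_mul (rz_le hC (tot_sa s hu) x) (rz_le hC (tot_sa s hu) y) (norm_nonneg _)
    (norm_nonneg _)

theorem norm_le_of_inner {T : H →L[ℂ] H} {c : ℝ} (x : H)
    (h : ∀ y : H, ‖⟪T x, y⟫_ℂ‖ ≤ c * (‖x‖ * ‖y‖)) : ‖T x‖ ≤ c * ‖x‖ := by
  have h1 := h (T x)
  have h2 : ‖⟪T x, T x⟫_ℂ‖ = ‖T x‖ * ‖T x‖ := by
    rw [inner_self_eq_norm_sq_to_K]
    simp [pow_two]
  rw [h2] at h1
  rcases (norm_nonneg (T x)).eq_or_lt with h3 | h3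
  · by_contra h4
    push Not at h4
    rw [← h3] at h4
    have h5 := h x
    have h6 : 0 ≤ c * (‖x‖ * ‖x‖) := (norm_nonneg _).trans h5
    rcases (norm_nonneg x).eq_or_lt with h7 | h7
    · rw [← h7] at h4; simp at h4
    · have : 0 ≤ c * ‖x‖ := by
        by_contra h8
        push Not at h8
        nlinarith
      linarith
  · have : ‖T x‖ * ‖T x‖ ≤ (c * ‖x‖) * ‖T x‖ := by linarith
    exact le_of_mul_le_mul_right this h3

include hC hu hs hN in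
theorem V_bound (hC3 : 3 ≤ C) (x : H) :
    ‖(∑ j, (s j : ℂ) • Xj C s u j) x‖ ≤ (C + 1) * ‖x‖ := by
  refine norm_le_of_inner x fun y => ?_
  have e0 : ⟪(∑ j, (s j : ℂ) • Xj C s u j) x, y⟫_ℂ = ∑ j, (s j : ℂ) * ⟪Xj C s u j x, y⟫_ℂ := by
    rw [_root_.sum_apply, sum_inner]
    refine Finset.sum_congr rfl fun j _ => ?_
    rw [_root_.smul_apply, inner_smul_left, Complex.conj_ofReal]
  rw [e0]
  have h1 := D_bound hC s hu hs hN (by linarith) x y
  have h2 : ‖⟪tot s u (rz C (tot s u) x), rz C (tot s u) y⟫_ℂ‖ ≤ C * (‖x‖ * ‖y‖) := by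
    refine (norm_inner_le_norm _ _).trans ?_
    calc _ ≤ (C * ‖x‖) * ‖y‖ := mul_le_mul (A_rz_le hC (tot_sa s hu) x) (rz_le hC (tot_sa s hu) y)
          (norm_nonneg _) (by positivity)
      _ = _ := by ring
  have h3 : 3 / C * (‖x‖ * ‖y‖) ≤ 1 * (‖x‖ * ‖y‖) := by
    refine mul_le_mul_of_nonneg_right ?_ (by positivity)
    rw [div_le_one hC]; exact hC3
  have h4 := norm_sub_norm_le (∑ j, (s j : ℂ) * ⟪Xj C s u j x, y⟫_ℂ)
    ⟪tot s u (rz C (tot s u) x), rz C (tot s u) y⟫_ℂ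
  linarith

include hC hu hs hN in
theorem R_bound (hC1 : 1 ≤ C) (x y : H) :
    ‖⟪(∑ j, (s j : ℂ) • Hj C s u j) x, y⟫_ℂ‖ ≤
      2 / C * (‖tot s u x‖ * ‖tot s u y‖) + 3 / C * (‖x‖ * ‖y‖) := by
  set P := rz C (tot s u) with hP
  have hA := tot_sa s hu
  have e0 : ⟪(∑ j, (s j : ℂ) • Hj C s u j) x, y⟫_ℂ =
      ⟪tot s u x, y - P y⟫_ℂ + ⟪x - P x, tot s u (P y)⟫_ℂ -
      ((∑ j, (s j : ℂ) * ⟪Xj C s u j x, y⟫_ℂ) - ⟪tot s u (P x), P y⟫_ℂ) := by
    have e1 : ⟪x - P x, tot s u (P y)⟫_ℂ = ⟪tot s u (x - P x), P y⟫_ℂ := by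
      rw [← ContinuousLinearMap.adjoint_inner_right, hA.adjoint_eq]
    have e2 : ⟪(∑ j, (s j : ℂ) • Hj C s u j) x, y⟫_ℂ = ⟪tot s u x, y⟫_ℂ -
        ∑ j, (s j : ℂ) * ⟪Xj C s u j x, y⟫_ℂ := by
      unfold tot Hj
      rw [_root_.sum_apply, sum_inner, _root_.sum_apply, sum_inner, ← Finset.sum_sub_distrib]
      refine Finset.sum_congr rfl fun j _ => ?_
      rw [_root_.smul_apply, inner_smul_left, Complex.conj_ofReal, _root_.smul_apply,
        inner_smul_left, Complex.conj_ofReal, _root_.sub_apply, inner_sub_left]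
      ring
    rw [e1, e2]
    simp only [map_sub, inner_sub_left, inner_sub_right]
    ring
  rw [e0]
  have n1 : ‖⟪tot s u x, y - P y⟫_ℂ‖ ≤ ‖tot s u x‖ * (‖tot s u y‖ / C) :=
    (norm_inner_le_norm _ _).trans (mul_le_mul_of_nonneg_left (one_sub_rz_le' hC hA y)
      (norm_nonneg _))
  have n2 : ‖⟪x - P x, tot s u (P y)⟫_ℂ‖ ≤ (‖tot s u x‖ / C) * ‖tot s u y‖ := by
    refine (norm_inner_le_norm _ _).trans (mul_le_mul (one_sub_rz_le' hC hA x) ?_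
      (norm_nonneg _) (by positivity))
    rw [hP, A_rz hC hA]
    exact rz_le hC hA _
  have n3 := D_bound hC s hu hs hN hC1 x y
  rw [← hP] at n3
  refine (norm_sub_le _ _).trans ((add_le_add (norm_add_le _ _) le_rfl).trans ?_)
  have e3 : 2 / C * (‖tot s u x‖ * ‖tot s u y‖) = ‖tot s u x‖ * (‖tot s u y‖ / C) +
    (‖tot s u x‖ / C) * ‖tot s u y‖ := by ring
  rw [e3]
  linarith

include hC hu hs hN in
theorem Hj_norm (a : J → H →L[ℂ] H) (j : J) (x : H) :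
    ‖Hj C s u j x‖ ≤ ‖(u j - a j) x‖ + ((‖tot s u (a j x)‖ / C + ‖u j (a j x)‖ / C) +
      (‖u j (rz C (tot s u) x)‖ / C + ‖u j (x - rz C (tot s u) x)‖)) := by
  set P := rz C (tot s u) with hP
  set Q := rz C (off s u j) with hQ
  set Q' := rz C (-(off s u j)) with hQ'
  have hB := off_sa s hu j
  have e0 : Hj C s u j x = ((u j - a j) x - Q' ((u j - a j) x)) + ((a j x - Q' (a j x)) +
      (Q' (u j (x - P x)) + Q' (u j (P x - Q x)))) := by
    unfold Hj Xj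
    rw [_root_.sub_apply, _root_.sub_apply, ContinuousLinearMap.comp_apply,
      ContinuousLinearMap.comp_apply]
    simp only [map_sub]
    abel
  rw [e0]
  have n1 : ‖(u j - a j) x - Q' ((u j - a j) x)‖ ≤ ‖(u j - a j) x‖ := one_sub_rz_le hC hB.neg _
  have n2 : ‖a j x - Q' (a j x)‖ ≤ ‖tot s u (a j x)‖ / C + ‖u j (a j x)‖ / C := by
    refine (one_sub_rz_le' hC hB.neg _).trans ?_
    rw [← add_div]
    refine div_le_div_of_nonneg_right ?_ hC.le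
    rw [_root_.neg_apply, norm_neg]
    have : off s u j (a j x) = tot s u (a j x) - (s j : ℂ) • u j (a j x) := by
      rw [tot_off s u j, _root_.add_apply, _root_.smul_apply]; abel
    rw [this]
    refine (norm_sub_le _ _).trans ?_
    rw [norm_smul, Complex.norm_real, Real.norm_eq_abs, hs j, one_mul]
  have n3 : ‖Q' (u j (x - P x))‖ ≤ ‖u j (x - P x)‖ := rz_le hC hB.neg _
  have n4 : ‖Q' (u j (P x - Q x))‖ ≤ ‖u j (P x)‖ / C := by
    refine (rz_le hC hB.neg _).trans ((one_le_op hN j _).trans ?_)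
    rw [norm_sub_rev]
    exact r_le hC s hu hs j x
  refine (norm_add_le _ _).trans (add_le_add n1 ?_)
  refine (norm_add_le _ _).trans (add_le_add n2 ?_)
  refine (norm_add_le _ _).trans ?_
  linarith

theorem sq_five (a b c d e : ℝ) :
    (a + ((b + c) + (d + e))) ^ 2 ≤ 11 / 10 * a ^ 2 + 44 * (b ^ 2 + c ^ 2 + d ^ 2 + e ^ 2) := by
  nlinarith [sq_nonneg (a - 10 * ((b + c) + (d + e))), sq_nonneg (b - c), sq_nonneg (b - d),
    sq_nonneg (b - e), sq_nonneg (c - d), sq_nonneg (c - e), sq_nonneg (d - e)]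

include hC hu hs hN in
theorem col_bound (a : J → H →L[ℂ] H) (x : H) :
    ∑ j, ‖Hj C s u j x‖ ^ 2 ≤ 11 / 10 * ∑ j, ‖(u j - a j) x‖ ^ 2 +
      44 / C ^ 2 * ((∑ j, ‖tot s u (a j x)‖ ^ 2) + (∑ j, ‖u j (a j x)‖ ^ 2) + ‖x‖ ^ 2 +
        ‖tot s u x‖ ^ 2) := by
  have hA := tot_sa s hu
  set P := rz C (tot s u) with hP
  have h1 : ∀ j ∈ (univ : Finset J), ‖Hj C s u j x‖ ^ 2 ≤ 11 / 10 * ‖(u j - a j) x‖ ^ 2 +
      44 * ((‖tot s u (a j x)‖ / C) ^ 2 + (‖u j (a j x)‖ / C) ^ 2 +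
      (‖u j (P x)‖ / C) ^ 2 + ‖u j (x - P x)‖ ^ 2) := by
    intro j _
    refine (pow_le_pow_left₀ (norm_nonneg _) (Hj_norm hC s hu hs hN a j x) 2).trans ?_
    exact sq_five _ _ _ _ _
  refine (Finset.sum_le_sum h1).trans ?_
  rw [Finset.sum_add_distrib, ← Finset.mul_sum, ← Finset.mul_sum]
  refine add_le_add le_rfl ?_
  simp only [Finset.sum_add_distrib, div_pow, ← Finset.sum_div]
  have h2 : ∑ j, ‖u j (P x)‖ ^ 2 ≤ ‖x‖ ^ 2 :=
    (hN _).trans (pow_le_pow_left₀ (norm_nonneg _) (rz_le hC hA x) 2)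
  have h3 : ∑ j, ‖u j (x - P x)‖ ^ 2 ≤ ‖tot s u x‖ ^ 2 / C ^ 2 := by
    refine (hN _).trans ?_
    rw [← div_pow]
    exact pow_le_pow_left₀ (norm_nonneg _) (one_sub_rz_le' hC hA x) 2
  have h4 : (∑ j, ‖u j (P x)‖ ^ 2) / C ^ 2 ≤ ‖x‖ ^ 2 / C ^ 2 :=
    div_le_div_of_nonneg_right h2 (by positivity)
  have e1 : 44 / C ^ 2 * ((∑ j, ‖tot s u (a j x)‖ ^ 2) + (∑ j, ‖u j (a j x)‖ ^ 2) + ‖x‖ ^ 2 +
        ‖tot s u x‖ ^ 2) = 44 * ((∑ j, ‖tot s u (a j x)‖ ^ 2) / C ^ 2 +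
        (∑ j, ‖u j (a j x)‖ ^ 2) / C ^ 2 + ‖x‖ ^ 2 / C ^ 2 + ‖tot s u x‖ ^ 2 / C ^ 2) := by ring
  rw [e1]
  linarith

end TG9
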