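import Mathlib
import Pool.Graph.R_seed8.TH364.SG.MC
set_option autoImplicit false
set_option linter.unusedSectionVars false

/-! Averages over sign vectors. -/

namespace TG9

open Finset TH364.SG
open scoped InnerProductSpace

variable {J : Type*} [Fintype J] [DecidableEq J]

/-- the average over sign vectors -/
noncomputable def av {M : Type*} [AddCommGroup M] [Module ℂ M] (f : (J → Bool) → M) : M :=
  ((2 : ℂ) ^ (Fintype.card J))⁻¹ • ∑ y, f y

/-- the real average over sign vectors -/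
noncomputable def avr (f : (J → Bool) → ℝ) : ℝ := ((2 : ℝ) ^ (Fintype.card J))⁻¹ * ∑ y, f y

theorem card_sign : (Fintype.card (J → Bool) : ℝ) = 2 ^ (Fintype.card J) := by
  rw [Fintype.card_fun, Fintype.card_bool]; push_cast; rfl

section mod
variable {M : Type*} [AddCommGroup M] [Module ℂ M]

theorem av_add (f g : (J → Bool) → M) : av (fun y => f y + g y) = av f + av g := by
  unfold av; rw [Finset.sum_add_distrib, smul_add]

theorem av_sub (f g : (J → Bool) → M) : av (fun y => f y - g y) = av f - av g := by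
  unfold av; rw [Finset.sum_sub_distrib, smul_sub]

theorem av_smul (c : ℂ) (f : (J → Bool) → M) : av (fun y => c • f y) = c • av f := by
  unfold av; rw [← Finset.smul_sum, smul_comm]

theorem av_sum {κ : Type*} (t : Finset κ) (f : κ → (J → Bool) → M) :
    av (fun y => ∑ k ∈ t, f k y) = ∑ k ∈ t, av (f k) := by
  unfold av; rw [Finset.sum_comm, Finset.smul_sum]

theorem av_const (c : M) : av (fun _ : J → Bool => c) = c := by
  unfold av
  rw [Finset.sum_const, Finset.card_univ, Fintype.card_fun, Fintype.card_bool, ← Nat.cast_smul_eq_nsmul ℂ,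
    smul_smul]
  push_cast
  rw [inv_mul_cancel₀ (pow_ne_zero _ two_ne_zero), one_smul]

theorem av_zero : av (fun _ : J → Bool => (0 : M)) = 0 := av_const 0

theorem av_neg (f : (J → Bool) → M) : av (fun y => - f y) = - av f := by
  unfold av; rw [Finset.sum_neg_distrib, smul_neg]

theorem av_comm (f : (J → Bool) → (J → Bool) → M) :
    av (fun x => av (fun y => f x y)) = av (fun y => av (fun x => f x y)) := by
  unfold av
  rw [← Finset.smul_sum, ← Finset.smul_sum, Finset.sum_comm]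

theorem av_equiv (σ : (J → Bool) ≃ (J → Bool)) (f : (J → Bool) → M) :
    av (fun y => f (σ y)) = av f := by
  unfold av
  rw [Equiv.sum_comp σ f]

theorem map_av {M' : Type*} [AddCommGroup M'] [Module ℂ M'] (φ : M →ₗ[ℂ] M')
    (f : (J → Bool) → M) : φ (av f) = av (fun y => φ (f y)) := by
  unfold av
  rw [map_smul, map_sum]

/-- swap one coordinate of two sign vectors -/
def sw (j : J) : ((J → Bool) × (J → Bool)) ≃ ((J → Bool) × (J → Bool)) where
  toFun p := (Function.update p.1 j (p.2 j), Function.update p.2 j (p.1 j))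
  invFun p := (Function.update p.1 j (p.2 j), Function.update p.2 j (p.1 j))
  left_inv p := by
    ext k <;> by_cases h : k = j
    · subst h; simp
    · simp [h]
    · subst h; simp
    · simp [h]
  right_inv p := by
    ext k <;> by_cases h : k = j
    · subst h; simp
    · simp [h]
    · subst h; simp
    · simp [h]

theorem av_sw (j : J) (f : (J → Bool) → (J → Bool) → M) :
    av (fun x => av (fun y => f (Function.update x j (y j)) (Function.update y j (x j)))) =
      av (fun x => av (fun y => f x y)) := by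
  unfold av
  rw [← Finset.smul_sum, ← Finset.smul_sum]
  congr 2
  rw [← Fintype.sum_prod_type' (f := fun x y => f x y), ← Equiv.sum_comp (sw j),
    Fintype.sum_prod_type]
  rfl

theorem av_flp (j : J) (f : (J → Bool) → M) : av (fun y => f (flp j y)) = av f :=
  av_equiv (flpE j) f

/-- a signed average of something independent of the sign vanishes -/
theorem av_sg_zero (j : J) (f : (J → Bool) → M) (h : ∀ y, f (flp j y) = f y) :
    av (fun y => ((sg (y j) : ℝ) : ℂ) • f y) = 0 := by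
  have h1 := av_flp j (fun y => ((sg (y j) : ℝ) : ℂ) • f y)
  have h2 : (fun y : J → Bool => ((sg (flp j y j) : ℝ) : ℂ) • f (flp j y)) =
      fun y => -(((sg (y j) : ℝ) : ℂ) • f y) := by
    funext y
    rw [h, flp_same, sg_not]
    push_cast
    rw [neg_smul]
  rw [h2, av_neg] at h1
  have h3 : (2 : ℂ) • av (fun y => ((sg (y j) : ℝ) : ℂ) • f y) = 0 := by
    rw [two_smul]
    nth_rewrite 1 [← h1]
    exact neg_add_cancel _
  exact (smul_eq_zero.1 h3).resolve_left (by norm_num)

end mod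

theorem avr_add (f g : (J → Bool) → ℝ) : avr (fun y => f y + g y) = avr f + avr g := by
  unfold avr; rw [Finset.sum_add_distrib, mul_add]

theorem avr_sub (f g : (J → Bool) → ℝ) : avr (fun y => f y - g y) = avr f - avr g := by
  unfold avr; rw [Finset.sum_sub_distrib, mul_sub]

theorem avr_mul (c : ℝ) (f : (J → Bool) → ℝ) : avr (fun y => c * f y) = c * avr f := by
  unfold avr; rw [← Finset.mul_sum]; ring

theorem avr_sum {κ : Type*} (t : Finset κ) (f : κ → (J → Bool) → ℝ) :
    avr (fun y => ∑ k ∈ t, f k y) = ∑ k ∈ t, avr (f k) := by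
  unfold avr; rw [Finset.sum_comm, Finset.mul_sum]

theorem avr_const (c : ℝ) : avr (fun _ : J → Bool => c) = c := by
  unfold avr
  rw [Finset.sum_const, Finset.card_univ, nsmul_eq_mul, card_sign, ← mul_assoc,
    inv_mul_cancel₀ (by positivity), one_mul]

theorem avr_comm (f : (J → Bool) → (J → Bool) → ℝ) :
    avr (fun x => avr (fun y => f x y)) = avr (fun y => avr (fun x => f x y)) := by
  unfold avr
  rw [← Finset.mul_sum, ← Finset.mul_sum, Finset.sum_comm]

theorem avr_mono {f g : (J → Bool) → ℝ} (h : ∀ y, f y ≤ g y) : avr f ≤ avr g := by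
  unfold avr
  exact mul_le_mul_of_nonneg_left (Finset.sum_le_sum fun y _ => h y) (by positivity)

theorem avr_nonneg {f : (J → Bool) → ℝ} (h : ∀ y, 0 ≤ f y) : 0 ≤ avr f := by
  have := avr_mono h
  rwa [avr_const] at this

theorem avr_le {f : (J → Bool) → ℝ} {c : ℝ} (h : ∀ y, f y ≤ c) : avr f ≤ c := by
  have := avr_mono h
  rwa [avr_const] at this

theorem avr_cast (f : (J → Bool) → ℝ) : ((avr f : ℝ) : ℂ) = av (fun y => ((f y : ℝ) : ℂ)) := by
  unfold avr av
  push_cast
  rfl

section norm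
variable {E : Type*} [SeminormedAddCommGroup E] [NormedSpace ℂ E]

theorem norm_av_le (f : (J → Bool) → E) : ‖av f‖ ≤ avr (fun y => ‖f y‖) := by
  unfold av avr
  rw [norm_smul, norm_inv, norm_pow, Complex.norm_two]
  exact mul_le_mul_of_nonneg_left (norm_sum_le _ _) (by positivity)

theorem norm_av_le' {f : (J → Bool) → E} {c : ℝ} (h : ∀ y, ‖f y‖ ≤ c) : ‖av f‖ ≤ c :=
  (norm_av_le f).trans (avr_le h)

theorem avr_sq_le (f : (J → Bool) → ℝ) : (avr f) ^ 2 ≤ avr (fun y => f y ^ 2) := by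
  have h : 0 ≤ avr (fun y => (f y - avr f) ^ 2) := avr_nonneg fun y => sq_nonneg _
  have e : (fun y => (f y - avr f) ^ 2) = fun y => (f y ^ 2 - (2 * avr f) * f y) + (avr f) ^ 2 := by
    funext y; ring
  rw [e, avr_add, avr_sub, avr_mul, avr_const] at h
  nlinarith

theorem norm_av_sq_le (f : (J → Bool) → E) : ‖av f‖ ^ 2 ≤ avr (fun y => ‖f y‖ ^ 2) :=
  (pow_le_pow_left₀ (norm_nonneg _) (norm_av_le f) 2).trans (avr_sq_le _)

end norm

section inner
variable {H : Type*} [NormedAddCommGroup H] [InnerProductSpace ℂ H]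

theorem inner_av_right (u : H) (f : (J → Bool) → H) :
    ⟪u, av f⟫_ℂ = av (fun y => ⟪u, f y⟫_ℂ) := by
  unfold av
  rw [inner_smul_right, inner_sum, smul_eq_mul]

theorem inner_av_left (u : H) (f : (J → Bool) → H) :
    ⟪av f, u⟫_ℂ = av (fun y => ⟪f y, u⟫_ℂ) := by
  unfold av
  rw [inner_smul_left, sum_inner, smul_eq_mul, map_inv₀, map_pow, Complex.conj_ofNat]

theorem re_av (f : (J → Bool) → ℂ) : (av f).re = avr (fun y => (f y).re) := by
  unfold av avr
  rw [smul_eq_mul]
  have : ((2 : ℂ) ^ (Fintype.card J))⁻¹ = ((((2 : ℝ) ^ (Fintype.card J))⁻¹ : ℝ) : ℂ) := by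
    push_cast; rfl
  rw [this, Complex.re_ofReal_mul, Complex.re_sum]

/-- variance of the one-variable projection of a symmetric function of two sign vectors -/
theorem sym_var (g : (J → Bool) → (J → Bool) → H) (hg : ∀ x y, g x y = g y x) :
    2 * avr (fun x => ‖av (fun y => g x y) - av (fun x => av (fun y => g x y))‖ ^ 2) ≤
      avr (fun x => avr (fun y => ‖g x y‖ ^ 2)) := by
  obtain ⟨r, hr⟩ : ∃ r : (J → Bool) → H, r = fun x => av (fun y => g x y) := ⟨_, rfl⟩
  obtain ⟨m, hm⟩ : ∃ m : H, m = av r := ⟨_, rfl⟩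
  have hr' : ∀ x, av (fun y => g x y) = r x := fun x => by rw [hr]
  simp only [hr']
  have hm' : av (fun x => r x) = m := hm.symm
  rw [hm']
  obtain ⟨R, hR⟩ : ∃ R : ℝ, R = avr (fun x => ‖r x‖ ^ 2) := ⟨_, rfl⟩
  have nsq : ∀ u : H, ‖u‖ ^ 2 = (⟪u, u⟫_ℂ).re := fun u => (inner_self_eq_norm_sq (𝕜 := ℂ) u).symm
  have sy : ∀ u v : H, (⟪u, v⟫_ℂ).re = (⟪v, u⟫_ℂ).re := fun u v => inner_re_symm (𝕜 := ℂ) u v
  -- averages
  have a1 : avr (fun x => avr (fun y => (⟪r x, g x y⟫_ℂ).re)) = R := by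
    rw [hR]
    congr 1
    funext x
    rw [← re_av, ← inner_av_right, hr', nsq]
  have a2 : avr (fun x => avr (fun y => (⟪r y, g x y⟫_ℂ).re)) = R := by
    rw [avr_comm, ← a1]
    congr 1
    funext y
    congr 1
    funext x
    rw [hg x y]
  have a3 : avr (fun x => avr (fun y => (⟪m, g x y⟫_ℂ).re)) = ‖m‖ ^ 2 := by
    have : ∀ x, avr (fun y => (⟪m, g x y⟫_ℂ).re) = (⟪m, r x⟫_ℂ).re := by
      intro x
      rw [← re_av, ← inner_av_right, hr']
    simp only [this]
    rw [← re_av, ← inner_av_right, hm', nsq]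
  have b1 : avr (fun x => avr (fun y => (⟪r x, r y⟫_ℂ).re)) = ‖m‖ ^ 2 := by
    have : ∀ x, avr (fun y => (⟪r x, r y⟫_ℂ).re) = (⟪r x, m⟫_ℂ).re := by
      intro x
      rw [← re_av, ← inner_av_right, hm']
    simp only [this]
    rw [← re_av, ← inner_av_left, hm', nsq]
  have b2 : avr (fun x => (⟪r x, m⟫_ℂ).re) = ‖m‖ ^ 2 := by
    rw [← re_av, ← inner_av_left, hm', nsq]
  have key : ∀ x y, 2 * ((⟪r x, g x y⟫_ℂ).re + (⟪r y, g x y⟫_ℂ).re - (⟪m, g x y⟫_ℂ).re) -
      (‖r x‖ ^ 2 + ‖r y‖ ^ 2 + ‖m‖ ^ 2 + 2 * (⟪r x, r y⟫_ℂ).re - 2 * (⟪r x, m⟫_ℂ).re -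
        2 * (⟪r y, m⟫_ℂ).re) ≤ ‖g x y‖ ^ 2 := by
    intro x y
    have h : 0 ≤ ‖g x y - (r x + r y - m)‖ ^ 2 := sq_nonneg _
    rw [nsq] at h
    simp only [inner_sub_left, inner_sub_right, inner_add_left, inner_add_right, Complex.sub_re,
      Complex.add_re] at h
    rw [nsq, nsq, nsq, nsq]
    rw [sy (g x y) (r x), sy (g x y) (r y), sy (g x y) m, sy (r y) (r x), sy m (r x), sy m (r y)] at h
    linarith
  have h1 : avr (fun x => avr (fun y => 2 * ((⟪r x, g x y⟫_ℂ).re + (⟪r y, g x y⟫_ℂ).re -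
      (⟪m, g x y⟫_ℂ).re) -
      (‖r x‖ ^ 2 + ‖r y‖ ^ 2 + ‖m‖ ^ 2 + 2 * (⟪r x, r y⟫_ℂ).re - 2 * (⟪r x, m⟫_ℂ).re -
        2 * (⟪r y, m⟫_ℂ).re))) ≤ avr (fun x => avr (fun y => ‖g x y‖ ^ 2)) :=
    avr_mono fun x => avr_mono fun y => key x y
  simp only [avr_add, avr_sub, avr_mul, avr_const] at h1
  rw [a1, a2, a3, b1, b2, ← hR] at h1
  have h2 : avr (fun x => ‖r x - m‖ ^ 2) = R - ‖m‖ ^ 2 := by
    have e : ∀ x, ‖r x - m‖ ^ 2 = ‖r x‖ ^ 2 - 2 * (⟪r x, m⟫_ℂ).re + ‖m‖ ^ 2 := by
      intro x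
      rw [@norm_sub_sq ℂ]; rfl
    simp only [e, avr_add, avr_sub, avr_mul, avr_const]
    rw [b2, ← hR]; ring
  rw [h2]
  nlinarith [sq_nonneg ‖m‖]

/-- orthogonality for families which are odd under the swap of their own coordinate -/
theorem orth_sw (v : J → (J → Bool) → (J → Bool) → H)
    (h1 : ∀ j x y, v j (Function.update x j (y j)) (Function.update y j (x j)) = - v j x y)
    (h2 : ∀ j k x y, k ≠ j →
      v k (Function.update x j (y j)) (Function.update y j (x j)) = v k x y) :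
    avr (fun x => avr (fun y => ‖∑ j, v j x y‖ ^ 2)) =
      avr (fun x => avr (fun y => ∑ j, ‖v j x y‖ ^ 2)) := by
  have nsq : ∀ u : H, ((‖u‖ ^ 2 : ℝ) : ℂ) = ⟪u, u⟫_ℂ := fun u => by
    rw [inner_self_eq_norm_sq_to_K]; push_cast; rfl
  apply Complex.ofReal_injective
  simp only [avr_cast, Complex.ofReal_sum, nsq, sum_inner, inner_sum, av_sum]
  refine Finset.sum_congr rfl fun j _ => ?_
  rw [Finset.sum_eq_single j]
  · intro k _ hk
    have h3 := av_sw j (fun x y => ⟪v k x y, v j x y⟫_ℂ)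
    simp only [h1, h2 j k _ _ hk, inner_neg_right, av_neg] at h3
    have h4 : (2 : ℂ) * av (fun x => av (fun y => ⟪v k x y, v j x y⟫_ℂ)) = 0 := by
      rw [two_mul]
      nth_rewrite 1 [← h3]
      exact neg_add_cancel _
    exact (mul_eq_zero.1 h4).resolve_left (by norm_num)
  · intro h; exact absurd (Finset.mem_univ j) h

end inner

end TG9
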