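import Mathlib
import Pool.Agent.Helper9.TG.Alg
import Pool.Agent.Helper9.TG.Av
set_option autoImplicit false
set_option linter.unusedSectionVars false

/-! Fields of self-adjoint operators on a finite abelian group: the bounds. -/

namespace TG9

open Finset TH364.SG
open scoped InnerProductSpace

variable {J : Type*} [Fintype J] [DecidableEq J]
variable {Γ : Type*} [AddCommGroup Γ] (e : J → Γ)
variable {H : Type*} [NormedAddCommGroup H] [InnerProductSpace ℂ H] [CompleteSpace H]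

/-- the sign vector as real numbers -/
noncomputable def rs (y : J → Bool) : J → ℝ := fun j => sg (y j)

theorem rs_abs (y : J → Bool) (j : J) : |rs y j| = 1 := by
  unfold rs sg; cases y j <;> simp

theorem sft_sw (j : J) (x y : J → Bool) :
    sft e (Function.update x j (y j)) + sft e (Function.update y j (x j)) =
      sft e x + sft e y := by
  unfold sft
  rw [← Finset.sum_add_distrib, ← Finset.sum_add_distrib]
  refine Finset.sum_congr rfl fun k _ => ?_
  by_cases h : k = j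
  · subst h; simp [add_comm]
  · simp [h]

theorem av_apply (f : (J → Bool) → H →L[ℂ] H) (x : H) : (av f) x = av (fun y => f y x) := by
  unfold av
  rw [_root_.smul_apply, _root_.sum_apply]

theorem av_sa {f : (J → Bool) → H →L[ℂ] H} (h : ∀ y, IsSelfAdjoint (f y)) :
    IsSelfAdjoint (av f) := by
  unfold av
  have : ((2 : ℂ) ^ (Fintype.card J))⁻¹ = ((((2 : ℝ) ^ (Fintype.card J))⁻¹ : ℝ) : ℂ) := by
    push_cast; rfl
  rw [this]
  exact sa_smul (sa_sum _ _ fun y _ => h y) _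

/-- the field of a family -/
noncomputable def hh (U : J → Γ → H →L[ℂ] H) (z : Γ) : H →L[ℂ] H :=
  av (fun y => tot (rs y) (fun j => U j (z + sft e y)))

/-- one step average of a family -/
noncomputable def Yf (U : J → Γ → H →L[ℂ] H) (j : J) (z : Γ) : H →L[ℂ] H :=
  av (fun y => U j (z + sft e y))

theorem tot_av (s : J → ℝ) (f : J → (J → Bool) → H →L[ℂ] H) :
    tot s (fun j => av (f j)) = av (fun y => tot s (fun j => f j y)) := by
  unfold tot
  rw [av_sum]
  exact Finset.sum_congr rfl fun j _ => (av_smul _ _).symm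

theorem tot_apply (s : J → ℝ) (u : J → H →L[ℂ] H) (x : H) :
    tot s u x = ∑ j, ((s j : ℝ) : ℂ) • u j x := by
  unfold tot
  rw [_root_.sum_apply]
  rfl

theorem hh_Yf (U : J → Γ → H →L[ℂ] H) (z : Γ) :
    hh e (Yf e U) z = av (fun y => hh e U (z + sft e y)) := by
  unfold hh Yf
  simp only [tot_av]
  rw [av_comm]
  congr 1
  funext y
  congr 1
  funext x
  congr 1
  funext j
  rw [add_assoc, add_assoc, add_comm (sft e x)]

/-- the class of families -/
structure Cls (U : J → Γ → H →L[ℂ] H) : Prop where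
  sa : ∀ j z, IsSelfAdjoint (U j z)
  col : ∀ z x, ∑ j, ‖U j z x‖ ^ 2 ≤ ‖x‖ ^ 2
  hb : ∀ z x, ‖hh e U z x‖ ≤ ‖x‖

variable {e}
variable {U : J → Γ → H →L[ℂ] H}

theorem Cls.Y_sa (hU : Cls e U) (j : J) (z : Γ) : IsSelfAdjoint (Yf e U j z) :=
  av_sa fun _ => hU.sa j _

theorem Cls.Y_col (hU : Cls e U) (z : Γ) (x : H) : ∑ j, ‖Yf e U j z x‖ ^ 2 ≤ ‖x‖ ^ 2 := by
  have h1 : ∀ j ∈ (univ : Finset J), ‖Yf e U j z x‖ ^ 2 ≤
      avr (fun y => ‖U j (z + sft e y) x‖ ^ 2) := by
    intro j _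
    unfold Yf
    rw [av_apply]
    exact norm_av_sq_le _
  refine (Finset.sum_le_sum h1).trans ?_
  rw [← avr_sum]
  exact avr_le fun y => hU.col _ _

/-- variance bound -/
theorem Cls.var (hU : Cls e U) (z : Γ) (x : H) :
    avr (fun y => ∑ j, ‖(Yf e U j (z + sft e y) - av (fun y => Yf e U j (z + sft e y))) x‖ ^ 2) ≤
      1 / 2 * ‖x‖ ^ 2 := by
  rw [avr_sum]
  have h1 : ∀ j ∈ (univ : Finset J), 2 * avr (fun y => ‖(Yf e U j (z + sft e y) -
      av (fun y => Yf e U j (z + sft e y))) x‖ ^ 2) ≤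
      avr (fun y => avr (fun y' => ‖U j (z + sft e y + sft e y') x‖ ^ 2)) := by
    intro j _
    have h := sym_var (fun y y' => U j (z + sft e y + sft e y') x) (fun y y' => by
      rw [add_assoc, add_assoc, add_comm (sft e y)])
    refine le_trans (le_of_eq ?_) h
    congr 2
    funext y
    congr 2
    rw [_root_.sub_apply, av_apply]
    unfold Yf
    rw [av_apply]
    congr 2
    funext y
    rw [av_apply]
  have h2 := Finset.sum_le_sum h1
  rw [← Finset.mul_sum] at h2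
  have h3 : ∑ j, avr (fun y => avr (fun y' => ‖U j (z + sft e y + sft e y') x‖ ^ 2)) ≤
      ‖x‖ ^ 2 := by
    rw [← avr_sum]
    refine avr_le fun y => ?_
    rw [← avr_sum]
    exact avr_le fun y' => hU.col _ _
  linarith

theorem sq_two (a b : ℝ) : (a + b) ^ 2 ≤ 3 * a ^ 2 + 3 / 2 * b ^ 2 := by
  nlinarith [sq_nonneg (2 * a - b)]

/-- the main second moment bound -/
theorem Cls.mom (hU : Cls e U) (z : Γ) (x : H) :
    avr (fun y => ‖tot (rs y) (fun j => Yf e U j (z + sft e y)) x‖ ^ 2) ≤ 9 * ‖x‖ ^ 2 := by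
  obtain ⟨v, hv⟩ : ∃ v : J → (J → Bool) → (J → Bool) → H, v = fun j y y' =>
    (((sg (y j) - sg (y' j) : ℝ)) : ℂ) • U j (z + (sft e y + sft e y')) x := ⟨_, rfl⟩
  have e1 : ∀ y, tot (rs y) (fun j => Yf e U j (z + sft e y)) x - hh e U (z + sft e y) x =
      av (fun y' => ∑ j, v j y y') := by
    intro y
    unfold hh Yf
    rw [tot_av, av_apply, av_apply, ← av_sub]
    congr 1
    funext y'
    rw [tot_apply, tot_apply, ← Finset.sum_sub_distrib, hv]
    refine Finset.sum_congr rfl fun j _ => ?_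
    rw [add_assoc, ← sub_smul]
    unfold rs
    push_cast
    rfl
  have e2 : avr (fun y => avr (fun y' => ‖∑ j, v j y y'‖ ^ 2)) ≤ 4 * ‖x‖ ^ 2 := by
    rw [orth_sw v]
    · refine avr_le fun y => avr_le fun y' => ?_
      have h1 : ∀ j ∈ (univ : Finset J), ‖v j y y'‖ ^ 2 ≤
          4 * ‖U j (z + (sft e y + sft e y')) x‖ ^ 2 := by
        intro j _
        rw [hv]
        simp only
        rw [norm_smul, mul_pow, Complex.norm_real, Real.norm_eq_abs, sq_abs]
        refine mul_le_mul_of_nonneg_right ?_ (sq_nonneg _)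
        unfold sg
        cases y j <;> cases y' j <;> norm_num
      refine (Finset.sum_le_sum h1).trans ?_
      rw [← Finset.mul_sum]
      exact mul_le_mul_of_nonneg_left (hU.col _ _) (by norm_num)
    · intro j y y'
      rw [hv]
      simp only
      rw [sft_sw, Function.update_self, Function.update_self, ← neg_smul]
      congr 1
      push_cast
      ring
    · intro j k y y' hk
      rw [hv]
      simp only
      rw [sft_sw, Function.update_of_ne hk, Function.update_of_ne hk]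
  have h1 : ∀ y, ‖tot (rs y) (fun j => Yf e U j (z + sft e y)) x‖ ^ 2 ≤
      3 * ‖x‖ ^ 2 + 3 / 2 * avr (fun y' => ‖∑ j, v j y y'‖ ^ 2) := by
    intro y
    have a1 : ‖tot (rs y) (fun j => Yf e U j (z + sft e y)) x‖ ≤ ‖x‖ +
        ‖av (fun y' => ∑ j, v j y y')‖ := by
      have : tot (rs y) (fun j => Yf e U j (z + sft e y)) x = hh e U (z + sft e y) x +
          av (fun y' => ∑ j, v j y y') := by rw [← e1]; abel
      rw [this]
      exact (norm_add_le _ _).trans (add_le_add (hU.hb _ _) le_rfl)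
    have a2 := norm_av_sq_le (fun y' => ∑ j, v j y y')
    have a3 := pow_le_pow_left₀ (norm_nonneg _) a1 2
    have a4 := sq_two ‖x‖ ‖av (fun y' => ∑ j, v j y y')‖
    linarith
  refine (avr_mono h1).trans ?_
  rw [avr_add, avr_const, avr_mul]
  linarith

theorem avr_cs (f g : (J → Bool) → ℝ) :
    (avr (fun y => f y * g y)) ^ 2 ≤ avr (fun y => f y ^ 2) * avr (fun y => g y ^ 2) := by
  unfold avr
  have h := Finset.sum_mul_sq_le_sq_mul_sq univ f g
  calc _ = (((2 : ℝ) ^ (Fintype.card J))⁻¹) ^ 2 * (∑ y, f y * g y) ^ 2 := by ring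
    _ ≤ (((2 : ℝ) ^ (Fintype.card J))⁻¹) ^ 2 * ((∑ y, f y ^ 2) * ∑ y, g y ^ 2) :=
      mul_le_mul_of_nonneg_left h (by positivity)
    _ = _ := by ring

/-- the remainder field -/
noncomputable def Rf (e : J → Γ) (U : J → Γ → H →L[ℂ] H) (z : Γ) : H →L[ℂ] H :=
  av (fun y => ∑ j, ((rs y j : ℝ) : ℂ) • Hj 100 (rs y) (fun j => Yf e U j (z + sft e y)) j)

/-- the new family -/
noncomputable def Uf (e : J → Γ) (U : J → Γ → H →L[ℂ] H) (j : J) (z : Γ) : H →L[ℂ] H :=
  av (fun y => Hj 100 (rs y) (fun j => Yf e U j (z + sft e y)) j)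

theorem rs_update_ne {j i : J} (h : i ≠ j) (y : J → Bool) (b : Bool) :
    rs (Function.update y j b) i = rs y i := by
  unfold rs; rw [Function.update_of_ne h]

theorem hh_Uf (z : Γ) : hh e (Uf e U) z = av (fun y => Rf e U (z + sft e y)) := by
  unfold hh Uf Rf
  simp only [tot_av]
  have h1 : ∀ (a b : J → Bool) (w : Γ), tot (rs a) (fun j => Hj 100 (rs b)
      (fun j => Yf e U j w) j) = ∑ j, ((rs a j : ℝ) : ℂ) • Hj 100 (rs b)
      (fun j => Yf e U j w) j := fun a b w => rfl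
  simp only [h1, av_sum, add_assoc]
  refine Finset.sum_congr rfl fun j _ => ?_
  have h2 := av_sw j (fun a b => ((rs b j : ℝ) : ℂ) • Hj 100 (rs b)
      (fun j => Yf e U j (z + (sft e a + sft e b))) j)
  rw [← h2]
  congr 1
  funext a
  congr 1
  funext b
  rw [sft_sw]
  have h3 : Hj 100 (rs (Function.update b j (a j))) (fun j => Yf e U j (z + (sft e a + sft e b))) j =
      Hj 100 (rs b) (fun j => Yf e U j (z + (sft e a + sft e b))) j :=
    Hj_congr 100 (fun i hi => rs_update_ne hi b _) _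
  rw [h3]
  congr 2
  unfold rs
  rw [Function.update_self]

theorem Cls.Uf_sa (hU : Cls e U) (j : J) (z : Γ) : IsSelfAdjoint (Uf e U j z) :=
  av_sa fun y => Hj_sa (by norm_num) _ (fun j => hU.Y_sa j _) j

theorem Cls.Uf_col (hU : Cls e U) (z : Γ) (x : H) :
    ∑ j, ‖Uf e U j z x‖ ^ 2 ≤ 16 / 25 * ‖x‖ ^ 2 := by
  have h1 : ∀ j ∈ (univ : Finset J), ‖Uf e U j z x‖ ^ 2 ≤
      avr (fun y => ‖Hj 100 (rs y) (fun j => Yf e U j (z + sft e y)) j x‖ ^ 2) := by
    intro j _
    unfold Uf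
    rw [av_apply]
    exact norm_av_sq_le _
  refine (Finset.sum_le_sum h1).trans ?_
  rw [← avr_sum]
  obtain ⟨a, ha⟩ : ∃ a : J → H →L[ℂ] H, a = fun j => av (fun y => Yf e U j (z + sft e y)) :=
    ⟨_, rfl⟩
  have h2 : ∀ y, ∑ j, ‖Hj 100 (rs y) (fun j => Yf e U j (z + sft e y)) j x‖ ^ 2 ≤
      11 / 10 * ∑ j, ‖(Yf e U j (z + sft e y) - a j) x‖ ^ 2 +
      44 / (100 : ℝ) ^ 2 * ((∑ j, ‖tot (rs y) (fun j => Yf e U j (z + sft e y)) (a j x)‖ ^ 2) +
        (∑ j, ‖Yf e U j (z + sft e y) (a j x)‖ ^ 2) + ‖x‖ ^ 2 +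
        ‖tot (rs y) (fun j => Yf e U j (z + sft e y)) x‖ ^ 2) := fun y =>
    col_bound (by norm_num) (rs y) (fun j => hU.Y_sa j _) (rs_abs y) (fun x => hU.Y_col _ x) a x
  refine (avr_mono h2).trans ?_
  simp only [avr_add, avr_mul, avr_const]
  have a0 : ∑ j, ‖a j x‖ ^ 2 ≤ ‖x‖ ^ 2 := by
    have b1 : ∀ j ∈ (univ : Finset J), ‖a j x‖ ^ 2 ≤
        avr (fun y => ‖Yf e U j (z + sft e y) x‖ ^ 2) := by
      intro j _
      rw [ha]
      simp only
      rw [av_apply]
      exact norm_av_sq_le _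
    refine (Finset.sum_le_sum b1).trans ?_
    rw [← avr_sum]
    exact avr_le fun y => hU.Y_col _ _
  have a1 : avr (fun y => ∑ j, ‖(Yf e U j (z + sft e y) - a j) x‖ ^ 2) ≤ 1 / 2 * ‖x‖ ^ 2 := by
    rw [ha]
    exact hU.var z x
  have a2 : avr (fun y => ∑ j, ‖tot (rs y) (fun j => Yf e U j (z + sft e y)) (a j x)‖ ^ 2) ≤
      9 * ‖x‖ ^ 2 := by
    rw [avr_sum]
    refine (Finset.sum_le_sum fun j _ => hU.mom z (a j x)).trans ?_
    rw [← Finset.mul_sum]
    linarith
  have a3 : avr (fun y => ∑ j, ‖Yf e U j (z + sft e y) (a j x)‖ ^ 2) ≤ ‖x‖ ^ 2 := by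
    refine avr_le fun y => le_trans (Finset.sum_le_sum fun j _ => ?_) a0
    exact pow_le_pow_left₀ (norm_nonneg _) (one_le_op (fun x => hU.Y_col _ x) j _) 2
  have a4 := hU.mom z x
  nlinarith [sq_nonneg ‖x‖]

theorem Cls.Rf_le (hU : Cls e U) (z : Γ) (x : H) : ‖Rf e U z x‖ ≤ 21 / 100 * ‖x‖ := by
  refine norm_le_of_inner x fun x' => ?_
  unfold Rf
  rw [av_apply, inner_av_left]
  refine (norm_av_le _).trans ?_
  have h1 : ∀ y, ‖⟪(∑ j, ((rs y j : ℝ) : ℂ) • Hj 100 (rs y)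
      (fun j => Yf e U j (z + sft e y)) j) x, x'⟫_ℂ‖ ≤
      2 / 100 * (‖tot (rs y) (fun j => Yf e U j (z + sft e y)) x‖ *
        ‖tot (rs y) (fun j => Yf e U j (z + sft e y)) x'‖) + 3 / 100 * (‖x‖ * ‖x'‖) := fun y =>
    R_bound (by norm_num) (rs y) (fun j => hU.Y_sa j _) (rs_abs y) (fun x => hU.Y_col _ x)
      (by norm_num) x x'
  refine (avr_mono h1).trans ?_
  rw [avr_add, avr_mul, avr_const]
  have h2 := avr_cs (fun y => ‖tot (rs y) (fun j => Yf e U j (z + sft e y)) x‖)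
    (fun y => ‖tot (rs y) (fun j => Yf e U j (z + sft e y)) x'‖)
  have h3 := hU.mom z x
  have h4 := hU.mom z x'
  have h5 : avr (fun y => ‖tot (rs y) (fun j => Yf e U j (z + sft e y)) x‖ *
      ‖tot (rs y) (fun j => Yf e U j (z + sft e y)) x'‖) ≤ 9 * (‖x‖ * ‖x'‖) := by
    refine le_of_sq_le_sq (h2.trans ?_) (by positivity)
    calc _ ≤ (9 * ‖x‖ ^ 2) * (9 * ‖x'‖ ^ 2) := mul_le_mul h3 h4
          (avr_nonneg fun y => sq_nonneg _) (by positivity)
      _ = _ := by ring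
  linarith

end TG9
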