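import Mathlib
import Pool.Agent.Helper9.TG.Fld
set_option autoImplicit false
set_option linter.unusedSectionVars false

/-! The self-improving inequality. -/

namespace TG9

open Finset TH364.SG
open scoped InnerProductSpace

variable {J : Type*} [Fintype J] [DecidableEq J]
variable {Γ : Type*} [AddCommGroup Γ] {e : J → Γ}
variable {H : Type*} [NormedAddCommGroup H] [InnerProductSpace ℂ H] [CompleteSpace H]
variable {L : (Γ → H →L[ℂ] H) →ₗ[ℂ] ℂ} {b : ℝ}

theorem L_av (V : (J → Bool) → Γ → H →L[ℂ] H) :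
    L (fun z => av (fun y => V y z)) = av (fun y => L (V y)) := by
  have h : (fun z => av (fun y => V y z)) = av V := by
    funext z
    unfold av
    rw [Pi.smul_apply, Finset.sum_apply]
  rw [h, map_av]

/-- the hypothesis on the functional -/
def Ctl (e : J → Γ) (L : (Γ → H →L[ℂ] H) →ₗ[ℂ] ℂ) (b : ℝ) : Prop :=
  ∀ (V : (J → Bool) → Γ → H →L[ℂ] H) (c : ℝ), 0 ≤ c → (∀ y z x, ‖V y z x‖ ≤ c * ‖x‖) →
    ‖av (fun y => L (fun z => V y (z + sft e y) - V y z))‖ ≤ c * b

theorem shift_le (hL : Ctl e L b) (h : Γ → H →L[ℂ] H) {c : ℝ} (hc : 0 ≤ c)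
    (hh : ∀ z x, ‖h z x‖ ≤ c * ‖x‖) :
    ‖L h - L (fun z => av (fun y => h (z + sft e y)))‖ ≤ c * b := by
  have h1 := hL (fun _ => h) c hc (fun _ => hh)
  rw [norm_sub_rev, L_av]
  refine le_trans (le_of_eq ?_) h1
  congr 1
  have h2 : L h = av (fun _ : J → Bool => L h) := (av_const _).symm
  rw [h2, ← av_sub]
  congr 1
  funext y
  rw [← map_sub]
  rfl

variable {U : J → Γ → H →L[ℂ] H}

/-- the bounded field -/
noncomputable def Vf (e : J → Γ) (U : J → Γ → H →L[ℂ] H) (y : J → Bool) (z : Γ) : H →L[ℂ] H :=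
  ∑ j, ((rs y j : ℝ) : ℂ) • Xj 100 (rs y) (fun j => Yf e U j z) j

theorem Vf_zero (z : Γ) : av (fun y => Vf e U y z) = 0 := by
  unfold Vf
  rw [av_sum]
  refine Finset.sum_eq_zero fun j _ => ?_
  refine av_sg_zero j (fun y => Xj 100 (rs y) (fun j => Yf e U j z) j) fun y => ?_
  refine Xj_congr 100 (fun i hi => ?_) _
  unfold rs
  rw [flp_ne hi]

theorem Vf_part (hL : Ctl e L b) (hU : Cls e U) :
    ‖L (fun z => av (fun y => Vf e U y (z + sft e y)))‖ ≤ 101 * b := by
  have h1 := hL (Vf e U) 101 (by norm_num) (fun y z x => by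
    have := V_bound (C := 100) (by norm_num) (rs y) (fun j => hU.Y_sa j z) (rs_abs y)
      (fun x => hU.Y_col z x) (by norm_num) x
    unfold Vf
    refine this.trans (le_of_eq ?_)
    norm_num)
  rw [L_av (fun y z => Vf e U y (z + sft e y))]
  have h2 : av (fun y => L (Vf e U y)) = 0 := by
    rw [← L_av]
    simp only [Vf_zero]
    exact map_zero L
  have h3 : av (fun y => L (fun z => Vf e U y (z + sft e y) - Vf e U y z)) =
      av (fun y => L (fun z => Vf e U y (z + sft e y))) := by
    rw [← sub_zero (av (fun y => L (fun z => Vf e U y (z + sft e y)))), ← h2, ← av_sub]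
    congr 1
    funext y
    rw [← map_sub]
    rfl
  rw [← h3]
  exact h1

theorem hh_split (z : Γ) : hh e (Yf e U) z =
    av (fun y => Vf e U y (z + sft e y)) + Rf e U z := by
  unfold hh Rf
  rw [← av_add]
  congr 1
  funext y
  unfold Vf tot Hj
  rw [← Finset.sum_add_distrib]
  refine Finset.sum_congr rfl fun j _ => ?_
  rw [← smul_add]
  congr 1
  abel

theorem hh_smul (c : ℂ) (z : Γ) : hh e (fun j z => c • U j z) z = c • hh e U z := by
  unfold hh
  rw [← av_smul]
  congr 1
  funext y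
  unfold tot
  rw [Finset.smul_sum]
  exact Finset.sum_congr rfl fun j _ => smul_comm _ _ _

theorem Cls.new (hU : Cls e U) : Cls e (fun j z => (((5 / 4 : ℝ)) : ℂ) • Uf e U j z) where
  sa j z := sa_smul (hU.Uf_sa j z) _
  col z x := by
    have h := hU.Uf_col z x
    have h1 : ∀ j ∈ (univ : Finset J), ‖((((5 / 4 : ℝ)) : ℂ) • Uf e U j z) x‖ ^ 2 =
        25 / 16 * ‖Uf e U j z x‖ ^ 2 := by
      intro j _
      rw [_root_.smul_apply, norm_smul, Complex.norm_real]
      norm_num
      ring
    rw [Finset.sum_congr rfl h1, ← Finset.mul_sum]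
    linarith
  hb z x := by
    rw [hh_smul, hh_Uf, _root_.smul_apply, norm_smul, Complex.norm_real, av_apply]
    have h : ‖av (fun y => Rf e U (z + sft e y) x)‖ ≤ 21 / 100 * ‖x‖ :=
      norm_av_le' fun y => hU.Rf_le _ _
    norm_num
    nlinarith [norm_nonneg x]

theorem improve (hL : Ctl e L b) (hb : 0 ≤ b) {M : ℝ} (hM : ∀ V, Cls e V → ‖L (hh e V)‖ ≤ M)
    (hU : Cls e U) : ‖L (hh e U)‖ ≤ 103 * b + 4 / 5 * M := by
  have s1 := shift_le hL (hh e U) (c := 1) zero_le_one (fun z x => by
    rw [one_mul]; exact hU.hb z x)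
  have s2 := Vf_part hL hU
  have s3 := shift_le hL (Rf e U) (c := 21 / 100) (by norm_num) hU.Rf_le
  have s4 := hM _ hU.new
  have e4 : hh e (fun j z => (((5 / 4 : ℝ)) : ℂ) • Uf e U j z) =
      (((5 / 4 : ℝ)) : ℂ) • fun z => av (fun y => Rf e U (z + sft e y)) := by
    funext z
    rw [hh_smul, hh_Uf]
    rfl
  rw [e4, map_smul, norm_smul, Complex.norm_real] at s4
  have e1 : (fun z => av (fun y => hh e U (z + sft e y))) =
      (fun z => av (fun y => Vf e U y (z + sft e y))) + Rf e U := by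
    funext z
    rw [← hh_Yf, hh_split]
    rfl
  rw [e1, map_add] at s1
  have e5 : L (hh e U) = (L (hh e U) - (L (fun z => av (fun y => Vf e U y (z + sft e y))) +
      L (Rf e U))) + L (fun z => av (fun y => Vf e U y (z + sft e y))) +
      (L (Rf e U) - L (fun z => av (fun y => Rf e U (z + sft e y)))) +
      L (fun z => av (fun y => Rf e U (z + sft e y))) := by ring
  rw [e5]
  have s5 : ‖L (fun z => av (fun y => Rf e U (z + sft e y)))‖ ≤ 4 / 5 * M := by
    norm_num at s4
    linarith
  have n1 := norm_add_le ((L (hh e U) - (L (fun z => av (fun y => Vf e U y (z + sft e y))) +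
      L (Rf e U))) + L (fun z => av (fun y => Vf e U y (z + sft e y))) +
      (L (Rf e U) - L (fun z => av (fun y => Rf e U (z + sft e y)))))
      (L (fun z => av (fun y => Rf e U (z + sft e y))))
  have n2 := norm_add_le ((L (hh e U) - (L (fun z => av (fun y => Vf e U y (z + sft e y))) +
      L (Rf e U))) + L (fun z => av (fun y => Vf e U y (z + sft e y))))
      (L (Rf e U) - L (fun z => av (fun y => Rf e U (z + sft e y))))
  have n3 := norm_add_le (L (hh e U) - (L (fun z => av (fun y => Vf e U y (z + sft e y))) +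
      L (Rf e U))) (L (fun z => av (fun y => Vf e U y (z + sft e y))))
  linarith

/-- **The metric inequality.** -/
theorem field_bound (hL : Ctl e L b) (hb : 0 ≤ b) {M : ℝ}
    (hM : ∀ V, Cls e V → ‖L (hh e V)‖ ≤ M) (hU : Cls e U) : ‖L (hh e U)‖ ≤ 515 * b := by
  have h1 : ∀ k : ℕ, ∀ V, Cls e V → ‖L (hh e V)‖ ≤ 515 * b + (4 / 5) ^ k * |M| := by
    intro k
    induction k with
    | zero =>
      intro V hV
      have := hM V hV
      have := le_abs_self M
      rw [pow_zero, one_mul]
      linarith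
    | succ k ih =>
      intro V hV
      have h := improve hL hb ih hV
      refine h.trans (le_of_eq ?_)
      rw [pow_succ]
      ring
  refine le_of_tendsto_of_tendsto' tendsto_const_nhds (b := Filter.atTop)
    (g := fun k : ℕ => 515 * b + (4 / 5) ^ k * |M|) ?_ fun k => h1 k U hU
  have h2 : Filter.Tendsto (fun k : ℕ => 515 * b + (4 / 5 : ℝ) ^ k * |M|) Filter.atTop
      (nhds (515 * b + 0 * |M|)) :=
    tendsto_const_nhds.add ((tendsto_pow_atTop_nhds_zero_of_lt_one (by norm_num)
      (by norm_num)).mul_const _)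
  simpa using h2

end TG9
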