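import Mathlib
import Pool.Agent.Helper9.TG.Impr
import Pool.Graph.R_seed8.TH364.SG.Asm
set_option autoImplicit false
set_option linter.unusedSectionVars false

/-! The pairing between Hermitian matrices in the trace norm and operators. -/

namespace TG9

open Finset TH364.SG Matrix
open scoped InnerProductSpace

variable {ι : Type*} [Fintype ι] [DecidableEq ι]

/-- matrices as operators -/
noncomputable abbrev Ph : Matrix ι ι ℂ ≃⋆ₐ[ℂ] (EuclideanSpace ℂ ι →L[ℂ] EuclideanSpace ℂ ι) :=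
  Matrix.toEuclideanCLM (n := ι) (𝕜 := ℂ)

theorem inner_col (M U : Matrix ι ι ℂ) (k : ι) :
    (Uᴴ * M * U) k k = ⟪(WithLp.toLp 2 (fun i => U i k) : EuclideanSpace ℂ ι),
      Ph M (WithLp.toLp 2 (fun i => U i k))⟫_ℂ := by
  rw [Matrix.toEuclideanCLM_toLp, EuclideanSpace.inner_toLp_toLp, Matrix.mul_assoc,
    Matrix.mul_apply, dotProduct]
  refine Finset.sum_congr rfl fun i _ => ?_
  rw [Matrix.conjTranspose_apply, Matrix.mul_apply, mul_comm]
  rfl

theorem diag_le {U : Matrix ι ι ℂ} (hU : Uᴴ * U = 1)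
    (Z : EuclideanSpace ℂ ι →L[ℂ] EuclideanSpace ℂ ι) {c : ℝ} (hZ : ∀ x, ‖Z x‖ ≤ c * ‖x‖) (k : ι) :
    ‖(Uᴴ * Ph.symm Z * U) k k‖ ≤ c := by
  rw [inner_col, StarAlgEquiv.apply_symm_apply]
  have h1 : ‖(WithLp.toLp 2 (fun i => U i k) : EuclideanSpace ℂ ι)‖ = 1 := by
    have h2 := gram_diag U k
    rw [hU, Matrix.one_apply_eq] at h2
    have h3 : ∑ j, ‖U j k‖ ^ 2 = 1 := by exact_mod_cast h2.symm
    rw [EuclideanSpace.norm_eq]
    simp only
    rw [h3, Real.sqrt_one]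
  refine (norm_inner_le_norm _ _).trans ?_
  rw [h1, one_mul]
  refine (hZ _).trans (le_of_eq ?_)
  rw [h1, mul_one]

theorem pair_le (T : Sd ι) (Z : EuclideanSpace ℂ ι →L[ℂ] EuclideanSpace ℂ ι) {c : ℝ}
    (hZ : ∀ x, ‖Z x‖ ≤ c * ‖x‖) : ‖(T.mat * Ph.symm Z).trace‖ ≤ c * tn T := by
  rw [Matrix.trace_mul_comm]
  unfold Sd.mat tn
  rw [T.trace_mul_fc, Finset.mul_sum]
  refine (norm_sum_le _ _).trans (Finset.sum_le_sum fun k _ => ?_)
  rw [norm_mul, Complex.norm_real, Real.norm_eq_abs]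
  exact mul_le_mul_of_nonneg_right (diag_le T.hU Z hZ k) (abs_nonneg _)

theorem pair_dif (S S' : Sd ι) (Z : EuclideanSpace ℂ ι →L[ℂ] EuclideanSpace ℂ ι) {c : ℝ}
    (hZ : ∀ x, ‖Z x‖ ≤ c * ‖x‖) :
    ‖((S.mat - S'.mat) * Ph.symm Z).trace‖ ≤ c * tn (dif S S') := by
  rw [← dif_spec]
  exact pair_le _ Z hZ

theorem pair_dif' (S S' : Sd ι) (Z : EuclideanSpace ℂ ι →L[ℂ] EuclideanSpace ℂ ι) {c : ℝ}
    (hZ : ∀ x, ‖Z x‖ ≤ c * ‖x‖) :
    ‖((S'.mat - S.mat) * Ph.symm Z).trace‖ ≤ c * tn (dif S S') := by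
  have h : (S'.mat - S.mat) * Ph.symm Z = -((S.mat - S'.mat) * Ph.symm Z) := by
    rw [← neg_mul, neg_sub]
  rw [h, Matrix.trace_neg, norm_neg]
  exact pair_dif S S' Z hZ

section fun_
variable {J : Type*} [Fintype J] [DecidableEq J]
variable {Γ : Type*} [AddCommGroup Γ] [Fintype Γ] {e : J → Γ}

/-- the functional -/
noncomputable def Lf (S : Γ → Sd ι) :
    (Γ → EuclideanSpace ℂ ι →L[ℂ] EuclideanSpace ℂ ι) →ₗ[ℂ] ℂ where
  toFun h := ∑ z, ((S z).mat * Ph.symm (h z)).trace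
  map_add' g h := by
    rw [← Finset.sum_add_distrib]
    refine Finset.sum_congr rfl fun z _ => ?_
    rw [Pi.add_apply, map_add, Matrix.mul_add, Matrix.trace_add]
  map_smul' c h := by
    rw [RingHom.id_apply, Finset.smul_sum]
    refine Finset.sum_congr rfl fun z _ => ?_
    rw [Pi.smul_apply, map_smul, Matrix.mul_smul, Matrix.trace_smul]

theorem Lf_apply (S : Γ → Sd ι) (h : Γ → EuclideanSpace ℂ ι →L[ℂ] EuclideanSpace ℂ ι) :
    Lf S h = ∑ z, ((S z).mat * Ph.symm (h z)).trace := rfl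

theorem Lf_shift (S : Γ → Sd ι) (h : Γ → EuclideanSpace ℂ ι →L[ℂ] EuclideanSpace ℂ ι) (c : Γ) :
    Lf S (fun z => h (z + c)) = ∑ x, ((S (x - c)).mat * Ph.symm (h x)).trace := by
  rw [Lf_apply, ← Equiv.sum_comp (Equiv.subRight c)]
  refine Finset.sum_congr rfl fun x _ => ?_
  simp only [Equiv.subRight_apply, sub_add_cancel]

theorem tn_shift (S : Γ → Sd ι) (c : Γ) :
    ∑ x, tn (dif (S x) (S (x - c))) = ∑ x, tn (dif (S (x + c)) (S x)) := by
  rw [← Equiv.sum_comp (Equiv.subRight c) (fun x => tn (dif (S (x + c)) (S x)))]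
  refine Finset.sum_congr rfl fun x _ => ?_
  simp only [Equiv.subRight_apply, sub_add_cancel]

theorem Lf_ctl (S : Γ → Sd ι) :
    Ctl e (Lf S) (avr (fun y => ∑ x, tn (dif (S (x + sft e y)) (S x)))) := by
  intro V c hc hV
  refine (norm_av_le _).trans ?_
  rw [← avr_mul]
  refine avr_mono fun y => ?_
  have e1 : Lf S (fun z => V y (z + sft e y) - V y z) =
      ∑ x, (((S (x - sft e y)).mat - (S x).mat) * Ph.symm (V y x)).trace := by
    have e2 : (fun z => V y (z + sft e y) - V y z) = (fun z => V y (z + sft e y)) - V y := rfl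
    rw [e2, map_sub, Lf_shift, Lf_apply, ← Finset.sum_sub_distrib]
    refine Finset.sum_congr rfl fun x _ => ?_
    rw [sub_mul, Matrix.trace_sub]
  rw [e1, ← tn_shift, Finset.mul_sum]
  refine (norm_sum_le _ _).trans (Finset.sum_le_sum fun x _ => ?_)
  exact pair_dif' _ _ _ (hV y x)

end fun_

end TG9
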