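import Mathlib
import Pool.Agent.Helper9.TG.Pair
set_option autoImplicit false
set_option linter.unusedSectionVars false

/-! The metric inequality for the trace norm on a finite abelian group, with no loss. -/

namespace TG9

open Finset TH364.SG Matrix
open scoped InnerProductSpace

variable {ι : Type*} [Fintype ι] [DecidableEq ι]
variable {J : Type*} [Fintype J] [DecidableEq J]

section tele
variable {Γ : Type*} [AddCommGroup Γ] (e : J → Γ)
variable {M : Type*} [AddCommGroup M] [Module ℂ M]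

theorem av_sg_pair (j : J) (V : Γ → M) (w : Γ) :
    (2 : ℂ) • av (fun y => ((sg (y j) : ℝ) : ℂ) • V (w + sft e y)) =
      av (fun y => V (w + e j + sfj e j y) - V (w - e j + sfj e j y)) := by
  have h1 : ∀ y : J → Bool, V (w + e j + sfj e j y) - V (w - e j + sfj e j y) =
      ((sg (y j) : ℝ) : ℂ) • V (w + sft e y) +
        ((sg (flp j y j) : ℝ) : ℂ) • V (w + sft e (flp j y)) := by
    intro y
    rw [sft_eq e j y, sft_eq e j (flp j y), sfj_flp, flp_same]
    cases h : y j
    · simp only [sg, sgz, Bool.not_false, cond_true, cond_false, one_smul, neg_smul,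
        Complex.ofReal_neg, Complex.ofReal_one]
      rw [show w + (sfj e j y + -e j) = w - e j + sfj e j y by abel,
        show w + (sfj e j y + e j) = w + e j + sfj e j y by abel]
      abel
    · simp only [sg, sgz, Bool.not_true, cond_true, cond_false, one_smul, neg_smul,
        Complex.ofReal_neg, Complex.ofReal_one]
      rw [show w + (sfj e j y + -e j) = w - e j + sfj e j y by abel,
        show w + (sfj e j y + e j) = w + e j + sfj e j y by abel]
      abel
  simp only [h1]
  rw [av_add, av_flp j (fun y => ((sg (y j) : ℝ) : ℂ) • V (w + sft e y)), two_smul]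

theorem av_tele (j : J) (V : Γ → M) (z : Γ) (l : ℕ) :
    (2 : ℂ) • av (fun y => ((sg (y j) : ℝ) : ℂ) •
      ∑ m ∈ Finset.range l, V (z + sft e y - (2 * m + 1) • e j)) =
      av (fun y => V (z + sfj e j y) - V (z - (2 * l) • e j + sfj e j y)) := by
  simp only [Finset.smul_sum]
  rw [av_sum, Finset.smul_sum]
  have h1 : ∀ m ∈ Finset.range l, (2 : ℂ) • av (fun y => ((sg (y j) : ℝ) : ℂ) •
      V (z + sft e y - (2 * m + 1) • e j)) =
      av (fun y => V (z - (2 * m) • e j + sfj e j y)) -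
        av (fun y => V (z - (2 * (m + 1)) • e j + sfj e j y)) := by
    intro m _
    have h2 := av_sg_pair e j V (z - (2 * m + 1) • e j)
    have e0 : ∀ y : J → Bool, z + sft e y - (2 * m + 1) • e j = z - (2 * m + 1) • e j + sft e y :=
      fun y => by abel
    simp only [e0]
    rw [h2, ← av_sub]
    congr 1
    funext y
    congr 2
    · rw [add_smul (2 * m), one_smul]; abel
    · rw [show 2 * (m + 1) = (2 * m + 1) + 1 by ring, add_smul (2 * m + 1), one_smul]; abel
  rw [Finset.sum_congr rfl h1,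
    Finset.sum_range_sub' (fun m => av (fun y => V (z - (2 * m) • e j + sfj e j y))), ← av_sub]
  simp

end tele

variable {Γ : Type*} [AddCommGroup Γ] [Fintype Γ] (e : J → Γ)

/-- the sign of the difference -/
noncomputable def Wm (S : Γ → Sd ι) (l : ℕ) (j : J) (x : Γ) : Matrix ι ι ℂ :=
  (dif (S (x + (2 * l) • e j)) (S x)).fc gs

/-- the same as an operator -/
noncomputable def Wo (S : Γ → Sd ι) (l : ℕ) (j : J) (x : Γ) :
    EuclideanSpace ℂ ι →L[ℂ] EuclideanSpace ℂ ι := Ph (Wm e S l j x)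

theorem Wo_sa (S : Γ → Sd ι) (l : ℕ) (j : J) (x : Γ) : IsSelfAdjoint (Wo e S l j x) := by
  have h : IsSelfAdjoint (Wm e S l j x) := by
    unfold Wm
    rw [IsSelfAdjoint, Matrix.star_eq_conjTranspose, Sd.fc_conj]
    refine Sd.fc_congr _ fun t => ?_
    unfold gs
    split_ifs <;> simp
  exact h.map (Ph : Matrix ι ι ℂ ≃⋆ₐ[ℂ] (EuclideanSpace ℂ ι →L[ℂ] EuclideanSpace ℂ ι))

theorem Wo_le (S : Γ → Sd ι) (l : ℕ) (j : J) (x : Γ) (v : EuclideanSpace ℂ ι) :
    ‖Wo e S l j x v‖ ≤ ‖v‖ := by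
  have h : (Wm e S l j x)ᴴ * Wm e S l j x = 1 := sign_unit _
  have h1 : star (Wo e S l j x) * Wo e S l j x = 1 := by
    unfold Wo
    rw [← map_star, ← map_mul, Matrix.star_eq_conjTranspose, h, map_one]
  have h2 : ⟪Wo e S l j x v, Wo e S l j x v⟫_ℂ = ⟪v, v⟫_ℂ := by
    rw [← ContinuousLinearMap.adjoint_inner_right, ← ContinuousLinearMap.star_eq_adjoint]
    have h3 := congrArg (fun T : EuclideanSpace ℂ ι →L[ℂ] EuclideanSpace ℂ ι => T v) h1
    have h4 : star (Wo e S l j x) (Wo e S l j x v) = v := h3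
    rw [h4]
  rw [inner_self_eq_norm_sq_to_K, inner_self_eq_norm_sq_to_K] at h2
  have h3 : ‖Wo e S l j x v‖ ^ 2 = ‖v‖ ^ 2 := by exact_mod_cast h2
  exact le_of_sq_le_sq h3.le (norm_nonneg _)

theorem tn_Wo (S : Γ → Sd ι) (l : ℕ) (j : J) (x : Γ) :
    ((tn (dif (S (x + (2 * l) • e j)) (S x)) : ℝ) : ℂ) =
      ((S (x + (2 * l) • e j)).mat * Ph.symm (Wo e S l j x)).trace -
        ((S x).mat * Ph.symm (Wo e S l j x)).trace := by
  unfold Wo
  rw [← tn_eq, dif_spec, StarAlgEquiv.symm_apply_apply, ← Matrix.trace_sub, ← sub_mul,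
    Matrix.trace_mul_comm]
  rfl

/-- the family -/
noncomputable def Ug (S : Γ → Sd ι) (l : ℕ) (K : ℝ) (j : J) (z : Γ) :
    EuclideanSpace ℂ ι →L[ℂ] EuclideanSpace ℂ ι :=
  ((-(1 / K) : ℝ) : ℂ) • ∑ m ∈ Finset.range l, Wo e S l j (z - (2 * m + 1) • e j)

theorem hh_Ug (S : Γ → Sd ι) (l : ℕ) {K : ℝ} (hK : 0 < K) (z : Γ) :
    ((2 * K : ℝ) : ℂ) • hh e (Ug e S l K) z =
      ∑ j, av (fun y => Wo e S l j (z - (2 * l) • e j + sfj e j y) - Wo e S l j (z + sfj e j y)) := by
  have hK' : (K : ℂ) ≠ 0 := by exact_mod_cast hK.ne'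
  unfold hh tot
  rw [av_sum, Finset.smul_sum]
  refine Finset.sum_congr rfl fun j _ => ?_
  have h1 := av_tele e j (Wo e S l j) z l
  have h2 : av (fun y => Wo e S l j (z - (2 * l) • e j + sfj e j y) - Wo e S l j (z + sfj e j y)) =
      - av (fun y => Wo e S l j (z + sfj e j y) - Wo e S l j (z - (2 * l) • e j + sfj e j y)) := by
    rw [← av_neg]
    congr 1
    funext y
    rw [neg_sub]
  rw [h2, ← h1]
  have h3 : av (fun y => ((rs y j : ℝ) : ℂ) • Ug e S l K j (z + sft e y)) =
      ((-(1 / K) : ℝ) : ℂ) • av (fun y => ((sg (y j) : ℝ) : ℂ) •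
      ∑ m ∈ Finset.range l, Wo e S l j (z + sft e y - (2 * m + 1) • e j)) := by
    rw [← av_smul]
    congr 1
    funext y
    unfold Ug rs
    rw [smul_comm]
  rw [h3, smul_smul, ← neg_smul]
  congr 1
  push_cast
  field_simp

theorem Ug_cls (S : Γ → Sd ι) (l : ℕ) {K : ℝ} (hK : 0 < K) (hK1 : (Fintype.card J : ℝ) ≤ K)
    (hK2 : (Fintype.card J : ℝ) * l ^ 2 ≤ K ^ 2) : Cls e (Ug e S l K) where
  sa j z := sa_smul (sa_sum _ _ fun m _ => Wo_sa e S l j _) _
  col z x := by
    have h1 : ∀ j ∈ (univ : Finset J), ‖Ug e S l K j z x‖ ^ 2 ≤ ((l * ‖x‖) / K) ^ 2 := by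
      intro j _
      refine pow_le_pow_left₀ (norm_nonneg _) ?_ 2
      unfold Ug
      rw [_root_.smul_apply, norm_smul, Complex.norm_real, Real.norm_eq_abs, abs_neg,
        abs_of_nonneg (by positivity), _root_.sum_apply, one_div, inv_mul_eq_div]
      refine div_le_div_of_nonneg_right ?_ hK.le
      refine (norm_sum_le _ _).trans ?_
      refine (Finset.sum_le_card_nsmul _ _ ‖x‖ fun m _ => Wo_le e S l j _ x).trans_eq ?_
      rw [Finset.card_range, nsmul_eq_mul]
    refine (Finset.sum_le_card_nsmul _ _ _ h1).trans ?_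
    rw [Finset.card_univ, nsmul_eq_mul, div_pow, mul_pow, ← mul_div_assoc, div_le_iff₀ (by positivity)]
    nlinarith [sq_nonneg ‖x‖]
  hb z x := by
    have h1 := congrArg (fun T : EuclideanSpace ℂ ι →L[ℂ] EuclideanSpace ℂ ι => ‖T x‖)
      (hh_Ug e S l hK z)
    rw [_root_.smul_apply, norm_smul, Complex.norm_real, Real.norm_of_nonneg (by positivity),
      _root_.sum_apply] at h1
    have h2 : ‖∑ j, (av (fun y => Wo e S l j (z - (2 * l) • e j + sfj e j y) -
        Wo e S l j (z + sfj e j y))) x‖ ≤ Fintype.card J * (2 * ‖x‖) := by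
      refine (norm_sum_le _ _).trans ?_
      refine (Finset.sum_le_card_nsmul _ _ (2 * ‖x‖) fun j _ => ?_).trans_eq ?_
      · rw [av_apply]
        refine norm_av_le' fun y => ?_
        rw [_root_.sub_apply]
        refine (norm_sub_le _ _).trans ?_
        have := Wo_le e S l j (z - (2 * l) • e j + sfj e j y) x
        have := Wo_le e S l j (z + sfj e j y) x
        linarith
      · rw [Finset.card_univ, nsmul_eq_mul]
    rw [← h1] at h2
    have h3 : (2 * K) * ‖hh e (Ug e S l K) z x‖ ≤ (2 * K) * ‖x‖ := by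
      refine h2.trans ?_
      nlinarith [norm_nonneg x]
    exact le_of_mul_le_mul_left h3 (by positivity)

/-- **The inequality for Hermitian matrices.** -/
theorem asm3 (S : Γ → Sd ι) (l : ℕ) {K : ℝ} (hK : 0 < K) (hK1 : (Fintype.card J : ℝ) ≤ K)
    (hK2 : (Fintype.card J : ℝ) * l ^ 2 ≤ K ^ 2) :
    ∑ x, ∑ j, tn (dif (S (x + (2 * l) • e j)) (S x)) ≤
      1030 * K * avr (fun y => ∑ x, tn (dif (S (x + sft e y)) (S x))) +
      2 * ∑ j, avr (fun y => ∑ x, tn (dif (S (x + sfj e j y)) (S x))) := by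
  have hc := Ug_cls e S l hK hK1 hK2
  have b0 : 0 ≤ avr (fun y => ∑ x, tn (dif (S (x + sft e y)) (S x))) :=
    avr_nonneg fun y => Finset.sum_nonneg fun x _ => tn_nonneg _
  -- an a priori bound
  have hM : ∀ V, Cls e V → ‖Lf S (hh e V)‖ ≤ ∑ z, tn (S z) := by
    intro V hV
    rw [Lf_apply]
    refine (norm_sum_le _ _).trans (Finset.sum_le_sum fun z _ => ?_)
    have := pair_le (S z) (hh e V z) (c := 1) (fun x => by rw [one_mul]; exact hV.hb z x)
    rwa [one_mul] at this
  have hF := field_bound (Lf_ctl (e := e) S) b0 hM hc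
  -- the value of the functional
  have e1 : ((2 * K : ℝ) : ℂ) * Lf S (hh e (Ug e S l K)) =
      ∑ j, av (fun y => ∑ x, (((S (x + (2 * l) • e j - sfj e j y)).mat *
        Ph.symm (Wo e S l j x)).trace - ((S (x - sfj e j y)).mat *
        Ph.symm (Wo e S l j x)).trace)) := by
    rw [← smul_eq_mul, ← map_smul]
    have h1 : ((2 * K : ℝ) : ℂ) • hh e (Ug e S l K) = ∑ j, fun z => av (fun y =>
        Wo e S l j (z - (2 * l) • e j + sfj e j y) - Wo e S l j (z + sfj e j y)) := by
      funext z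
      rw [Pi.smul_apply, hh_Ug e S l hK, Finset.sum_apply]
    rw [h1, map_sum]
    refine Finset.sum_congr rfl fun j _ => ?_
    rw [L_av (fun y z => Wo e S l j (z - (2 * l) • e j + sfj e j y) - Wo e S l j (z + sfj e j y))]
    congr 1
    funext y
    have h2 : (fun z => Wo e S l j (z - (2 * l) • e j + sfj e j y) - Wo e S l j (z + sfj e j y)) =
        (fun z => Wo e S l j (z + (sfj e j y - (2 * l) • e j))) -
          (fun z => Wo e S l j (z + sfj e j y)) := by
      funext z
      rw [Pi.sub_apply]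
      congr 2
      abel
    rw [h2, map_sub, Lf_shift, Lf_shift, ← Finset.sum_sub_distrib]
    refine Finset.sum_congr rfl fun x _ => ?_
    congr 4
    rw [show x - (sfj e j y - (2 * l) • e j) = x + (2 * l) • e j - sfj e j y by abel]
  have e2 : ((∑ x, ∑ j, tn (dif (S (x + (2 * l) • e j)) (S x)) : ℝ) : ℂ) =
      ((2 * K : ℝ) : ℂ) * Lf S (hh e (Ug e S l K)) +
      ∑ j, av (fun y => ∑ x, ((((S (x + (2 * l) • e j)).mat -
          (S (x + (2 * l) • e j - sfj e j y)).mat) * Ph.symm (Wo e S l j x)).trace -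
        (((S x).mat - (S (x - sfj e j y)).mat) * Ph.symm (Wo e S l j x)).trace)) := by
    rw [e1, ← Finset.sum_add_distrib]
    push_cast
    rw [Finset.sum_comm]
    refine Finset.sum_congr rfl fun j _ => ?_
    rw [← av_add]
    have h1 : ∑ x, ((tn (dif (S (x + (2 * l) • e j)) (S x)) : ℝ) : ℂ) = av (fun _ : J → Bool =>
        ∑ x, ((tn (dif (S (x + (2 * l) • e j)) (S x)) : ℝ) : ℂ)) := (av_const _).symm
    rw [h1]
    congr 1
    funext y
    rw [← Finset.sum_add_distrib]
    refine Finset.sum_congr rfl fun x _ => ?_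
    rw [tn_Wo, sub_mul, sub_mul, Matrix.trace_sub, Matrix.trace_sub]
    ring
  have e3 : ∀ j : J, ∀ c : Γ, ∑ x, tn (dif (S (x + (2 * l) • e j)) (S (x + (2 * l) • e j - c))) =
      ∑ x, tn (dif (S (x + c)) (S x)) := by
    intro j c
    rw [← tn_shift, ← Equiv.sum_comp (Equiv.addRight ((2 * l) • e j))
      (fun x => tn (dif (S x) (S (x - c))))]
    rfl
  have n2 : ‖∑ j, av (fun y => ∑ x, ((((S (x + (2 * l) • e j)).mat -
          (S (x + (2 * l) • e j - sfj e j y)).mat) * Ph.symm (Wo e S l j x)).trace -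
        (((S x).mat - (S (x - sfj e j y)).mat) * Ph.symm (Wo e S l j x)).trace))‖ ≤
      2 * ∑ j, avr (fun y => ∑ x, tn (dif (S (x + sfj e j y)) (S x))) := by
    rw [Finset.mul_sum]
    refine (norm_sum_le _ _).trans (Finset.sum_le_sum fun j _ => ?_)
    rw [← avr_mul]
    refine (norm_av_le _).trans (avr_mono fun y => ?_)
    refine (norm_sum_le _ _).trans ?_
    have h1 : ∀ x ∈ (univ : Finset Γ), ‖(((S (x + (2 * l) • e j)).mat -
          (S (x + (2 * l) • e j - sfj e j y)).mat) * Ph.symm (Wo e S l j x)).trace -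
        (((S x).mat - (S (x - sfj e j y)).mat) * Ph.symm (Wo e S l j x)).trace‖ ≤
        tn (dif (S (x + (2 * l) • e j)) (S (x + (2 * l) • e j - sfj e j y))) +
        tn (dif (S x) (S (x - sfj e j y))) := by
      intro x _
      refine (norm_sub_le _ _).trans (add_le_add ?_ ?_)
      · have := pair_dif (S (x + (2 * l) • e j)) (S (x + (2 * l) • e j - sfj e j y))
          (Wo e S l j x) (c := 1) (fun v => by rw [one_mul]; exact Wo_le e S l j x v)
        rwa [one_mul] at this
      · have := pair_dif (S x) (S (x - sfj e j y))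
          (Wo e S l j x) (c := 1) (fun v => by rw [one_mul]; exact Wo_le e S l j x v)
        rwa [one_mul] at this
    refine (Finset.sum_le_sum h1).trans (le_of_eq ?_)
    rw [Finset.sum_add_distrib, e3, tn_shift]
    ring
  have hL0 : 0 ≤ ∑ x, ∑ j, tn (dif (S (x + (2 * l) • e j)) (S x)) :=
    Finset.sum_nonneg fun x _ => Finset.sum_nonneg fun j _ => tn_nonneg _
  have hfin := congrArg norm e2
  rw [Complex.norm_real, Real.norm_of_nonneg hL0] at hfin
  rw [hfin]
  refine (norm_add_le _ _).trans (add_le_add ?_ n2)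
  rw [norm_mul, Complex.norm_real, Real.norm_of_nonneg (by positivity)]
  calc 2 * K * ‖Lf S (hh e (Ug e S l K))‖ ≤ 2 * K *
        (515 * avr (fun y => ∑ x, tn (dif (S (x + sft e y)) (S x)))) :=
        mul_le_mul_of_nonneg_left hF (by positivity)
    _ = _ := by ring

end TG9
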