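import Mathlib
import Pool.Agent.Helper9.TG.Asm3
import Pool.Graph.R_seed8.TH364.SG.Red
set_option autoImplicit false
set_option linter.unusedSectionVars false

/-! The metric inequality for functions with values in the trace class, with no loss. -/

namespace TG9

open Finset TH364.SG
open Pool.Agent.Results.MP_fd02da_an.SchattenIsometries

universe u v
variable {H : Type u} [NormedAddCommGroup H] [InnerProductSpace ℂ H] [CompleteSpace H]
variable {J : Type v} [Fintype J] [DecidableEq J]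
variable {Γ : Type*} [AddCommGroup Γ] [Fintype Γ] (e : J → Γ)

theorem torus3 (F : Γ → SchattenClass 1 H) (l : ℕ) {K : ℝ} (hK : 0 < K)
    (hK1 : (Fintype.card J : ℝ) ≤ K) (hK2 : (Fintype.card J : ℝ) * l ^ 2 ≤ K ^ 2) :
    ∑ x, ∑ j, ‖F (x + (2 * l) • e j) - F x‖ ≤
      4120 * K * avr (fun y => ∑ x, ‖F (x + sft e y) - F x‖) +
      8 * ∑ j, avr (fun y => ∑ x, ‖F (x + sfj e j y) - F x‖) := by
  classical
  obtain ⟨d, A, hA, hAT⟩ := reduce F
  choose S hS using fun x : Γ => exists_sd (hA x)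
  have hd : ∀ x y, (dif (S x) (S y)).mat = A x - A y := by
    intro x y
    rw [dif_spec, hS, hS]
  have u1 : ∀ x y, tn (dif (S x) (S y)) ≤ 2 * ‖F x - F y‖ := fun x y => (hAT x y _ (hd x y)).2
  have u2 : ∀ x y, ‖F x - F y‖ ≤ 2 * tn (dif (S x) (S y)) := by
    intro x y
    have := (hAT x y _ (hd x y)).1
    linarith
  have h := asm3 e S l hK hK1 hK2
  have k0 : avr (fun y => ∑ x, tn (dif (S (x + sft e y)) (S x))) ≤
      2 * avr (fun y => ∑ x, ‖F (x + sft e y) - F x‖) := by
    rw [← avr_mul]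
    refine avr_mono fun y => ?_
    rw [Finset.mul_sum]
    exact Finset.sum_le_sum fun x _ => u1 _ _
  have k1 : ∑ j, avr (fun y => ∑ x, tn (dif (S (x + sfj e j y)) (S x))) ≤
      2 * ∑ j, avr (fun y => ∑ x, ‖F (x + sfj e j y) - F x‖) := by
    rw [Finset.mul_sum]
    refine Finset.sum_le_sum fun j _ => ?_
    rw [← avr_mul]
    refine avr_mono fun y => ?_
    rw [Finset.mul_sum]
    exact Finset.sum_le_sum fun x _ => u1 _ _
  have k2 : ∑ x, ∑ j, ‖F (x + (2 * l) • e j) - F x‖ ≤
      2 * ∑ x, ∑ j, tn (dif (S (x + (2 * l) • e j)) (S x)) := by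
    rw [Finset.mul_sum]
    refine Finset.sum_le_sum fun x _ => ?_
    rw [Finset.mul_sum]
    exact Finset.sum_le_sum fun j _ => u2 _ _
  have k3 : 1030 * K * avr (fun y => ∑ x, tn (dif (S (x + sft e y)) (S x))) ≤
      1030 * K * (2 * avr (fun y => ∑ x, ‖F (x + sft e y) - F x‖)) :=
    mul_le_mul_of_nonneg_left k0 (by positivity)
  linarith

end TG9
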