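import Mathlib
import Pool.Agent.Helper9.TG.Torus3
import Pool.Graph.R_seed8.TH364.SG.Grid
import Pool.Graph.R_seed8.TH364.SG.Num
import Pool.Graph.R_seed8.TH364.SG.Fin
set_option autoImplicit false
set_option linter.unusedSectionVars false

/-! Grids in the trace class: the sharp order of the distortion. -/

namespace TG9

open TH364.SG
open Pool.Agent.Results.MP_fd02da_an.SchattenIsometries

universe u
variable {H : Type u} [NormedAddCommGroup H] [InnerProductSpace ℂ H] [CompleteSpace H]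

theorem quant3 (l n : ℕ) [NeZero l] (f : Grid (2 * l) n → SchattenClass 1 H) {lam D K : ℝ}
    (hlam : 0 < lam) (hD : 0 < D) (hK : 0 < K) (hK1 : (n : ℝ) ≤ K) (hK2 : (n : ℝ) * l ^ 2 ≤ K ^ 2)
    (hf : ∀ x y, lam * dist x y ≤ dist (f x) (f y) ∧ dist (f x) (f y) ≤ D * lam * dist x y) :
    (n * l : ℝ) ≤ 4128 * K * D := by
  obtain ⟨F, hF⟩ : ∃ F : (Fin n → ZMod (4 * l)) → SchattenClass 1 H,
    F = fun x => f (clip (2 * l) (fold l x)) := ⟨_, rfl⟩
  have hfl : ∀ (x : Fin n → ZMod (4 * l)) j, fold l x j ≤ 2 * l := fun x j => fo_le l _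
  have hlow : ∀ x x' : Fin n → ZMod (4 * l), lam * gd (fold l x) (fold l x') ≤ ‖F x - F x'‖ := by
    intro x x'
    have h2 := (hf (clip (2 * l) (fold l x)) (clip (2 * l) (fold l x'))).1
    rw [dist_eq_norm (f _), Subtype.dist_eq, clip_eq (hfl x), clip_eq (hfl x')] at h2
    rw [hF]
    exact h2
  have hupp : ∀ x x' : Fin n → ZMod (4 * l), ‖F x - F x'‖ ≤ D * lam * gd (fold l x) (fold l x') := by
    intro x x'
    have h2 := (hf (clip (2 * l) (fold l x)) (clip (2 * l) (fold l x'))).2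
    rw [dist_eq_norm (f _), Subtype.dist_eq, clip_eq (hfl x), clip_eq (hfl x')] at h2
    rw [hF]
    exact h2
  have hDl : 0 < D * lam := by positivity
  have hstep : ∀ x x' : Fin n → ZMod (4 * l), near (ev l n) x x' → ‖F x - F x'‖ ≤ D * lam := by
    intro x x' hx
    refine (hupp x x').trans ?_
    calc D * lam * gd (fold l x) (fold l x') ≤ D * lam * 1 :=
          mul_le_mul_of_nonneg_left (fold_near l hx) hDl.le
      _ = _ := mul_one _
  obtain ⟨G, hG⟩ : ∃ G : ℝ, G = (Fintype.card (Fin n → ZMod (4 * l)) : ℝ) := ⟨_, rfl⟩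
  have hG0 : 0 < G := by
    have : 0 < Fintype.card (Fin n → ZMod (4 * l)) := Fintype.card_pos
    rw [hG]; exact_mod_cast this
  have hb0 : avr (fun y => ∑ x, ‖F (x + sft (ev l n) y) - F x‖) ≤ G * (D * lam) := by
    refine avr_le fun y => ?_
    refine (Finset.sum_le_card_nsmul _ _ (D * lam) fun x _ => ?_).trans_eq ?_
    · exact hstep _ _ ⟨fun k => sgz (y k), fun k => sgz_abs _, rfl⟩
    · rw [Finset.card_univ, nsmul_eq_mul, hG]
  have hb1 : ∑ j, avr (fun y => ∑ x, ‖F (x + sfj (ev l n) j y) - F x‖) ≤ n * (G * (D * lam)) := by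
    refine (Finset.sum_le_card_nsmul _ _ (G * (D * lam)) fun j _ => ?_).trans_eq ?_
    · refine avr_le fun y => ?_
      refine (Finset.sum_le_card_nsmul _ _ (D * lam) fun x _ => ?_).trans_eq ?_
      · refine hstep _ _ ⟨fun k => if k = j then 0 else sgz (y k), fun k => ?_, rfl⟩
        dsimp only
        split_ifs
        · simp
        · exact sgz_abs _
      · rw [Finset.card_univ, nsmul_eq_mul, hG]
    · rw [Finset.card_univ, Fintype.card_fin, nsmul_eq_mul]
  have hT := torus3 (ev l n) F l hK (by rwa [Fintype.card_fin]) (by rwa [Fintype.card_fin])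
  have hlo : lam * (n * (l * G)) ≤ ∑ x, ∑ j, ‖F (x + (2 * l) • ev l n j) - F x‖ := by
    have h1 : ∑ x : Fin n → ZMod (4 * l), ∑ j, lam * ad l (x j) ≤
        ∑ x : Fin n → ZMod (4 * l), ∑ j, ‖F (x + (2 * l) • ev l n j) - F x‖ := by
      refine Finset.sum_le_sum fun x _ => Finset.sum_le_sum fun j _ => ?_
      refine le_trans ?_ (hlow _ _)
      exact mul_le_mul_of_nonneg_left (fold_anti l x j) hlam.le
    refine le_trans (le_of_eq ?_) h1
    rw [Finset.sum_comm]
    simp only [← Finset.mul_sum]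
    congr 1
    simp only [sum_ad]
    rw [Finset.sum_const, Finset.card_univ, Fintype.card_fin, nsmul_eq_mul, hG]
  have h3 : 4120 * K * avr (fun y => ∑ x, ‖F (x + sft (ev l n) y) - F x‖) +
      8 * ∑ j, avr (fun y => ∑ x, ‖F (x + sfj (ev l n) j y) - F x‖) ≤
      4128 * K * (G * (D * lam)) := by
    have a1 : 4120 * K * avr (fun y => ∑ x, ‖F (x + sft (ev l n) y) - F x‖) ≤
        4120 * K * (G * (D * lam)) := mul_le_mul_of_nonneg_left hb0 (by positivity)
    have a2 : n * (G * (D * lam)) ≤ K * (G * (D * lam)) :=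
      mul_le_mul_of_nonneg_right hK1 (by positivity)
    linarith
  have h4 : (lam * G) * (n * l : ℝ) ≤ (lam * G) * (4128 * K * D) := by
    refine le_trans (le_of_eq (by ring)) ((hlo.trans (hT.trans h3)).trans (le_of_eq ?_))
    ring
  exact le_of_mul_le_mul_left h4 (by positivity)

/-- **The distortion of grids in the trace class.** -/
theorem main3 (n m : ℕ) (hn : 1 ≤ n) (hm : 1 ≤ m) (f : Grid m n → SchattenClass 1 H) {lam D : ℝ}
    (hlam : 0 < lam)
    (hf : ∀ x y, lam * dist x y ≤ dist (f x) (f y) ∧ dist (f x) (f y) ≤ D * lam * dist x y) :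
    min (m : ℝ) (Real.sqrt n) ≤ 16512 * D := by
  have hn' : (1 : ℝ) ≤ n := by exact_mod_cast hn
  have hD : 1 ≤ D := by
    obtain ⟨x, y, hxy⟩ := dist_ge_one (m := m) (n := n) hm hn
    have h := (hf x y).1.trans (hf x y).2
    have h1 : 0 < lam * dist x y := by positivity
    by_contra hcon
    push Not at hcon
    nlinarith
  obtain ⟨t, ht⟩ : ∃ t, t = Real.sqrt n := ⟨_, rfl⟩
  rw [← ht]
  have ht0 : 0 ≤ t := by rw [ht]; exact Real.sqrt_nonneg _
  have htt : t * t = n := by rw [ht]; exact Real.mul_self_sqrt (by positivity)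
  obtain ⟨c, hc⟩ : ∃ c, c = ⌊t⌋₊ := ⟨_, rfl⟩
  have hc1 : (c : ℝ) ≤ t := by rw [hc]; exact Nat.floor_le ht0
  have hc2 : t < c + 1 := by rw [hc]; exact Nat.lt_floor_add_one _
  rcases Nat.lt_or_ge (min m c) 2 with hm2 | hm2
  · rcases le_total m c with hmc | hmc
    · rw [min_eq_left hmc] at hm2
      have : (m : ℝ) ≤ 1 := by exact_mod_cast (by omega : m ≤ 1)
      have := min_le_left (m : ℝ) t
      linarith
    · rw [min_eq_right hmc] at hm2
      have : (c : ℝ) ≤ 1 := by exact_mod_cast (by omega : c ≤ 1)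
      have := min_le_right (m : ℝ) t
      linarith
  · obtain ⟨l, hl⟩ : ∃ l, l = min m c / 2 := ⟨_, rfl⟩
    have hl1 : 1 ≤ l := by omega
    have hl3 : min m c ≤ 2 * l + 1 := by omega
    have hl2 : 2 * l ≤ min m c := by omega
    have hlm : 2 * l ≤ m := hl2.trans (min_le_left _ _)
    have hlc : 2 * l ≤ c := hl2.trans (min_le_right _ _)
    have hl0 : (1 : ℝ) ≤ l := by exact_mod_cast hl1
    have hlt : (2 * l : ℝ) ≤ t := by
      have : (2 * l : ℝ) ≤ c := by exact_mod_cast hlc
      linarith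
    have : NeZero l := ⟨by omega⟩
    have hq := quant3 l n (fun x => f ⟨x.1, fun j => (x.2 j).trans hlm⟩) (K := n) hlam (by linarith)
      (by linarith) le_rfl (by
        have h1 : (l : ℝ) ^ 2 ≤ n := by nlinarith
        nlinarith)
      (fun x y => hf ⟨x.1, fun j => (x.2 j).trans hlm⟩ ⟨y.1, fun j => (y.2 j).trans hlm⟩)
    have h4 : (l : ℝ) ≤ 4128 * D := by
      have : (n : ℝ) * l ≤ n * (4128 * D) := hq.trans_eq (by ring)
      exact le_of_mul_le_mul_left this (by linarith)
    have h5 : ((min m c : ℕ) : ℝ) ≤ 2 * l + 1 := by exact_mod_cast hl3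
    rcases le_total m c with hmc | hmc
    · rw [min_eq_left hmc] at h5
      have := min_le_left (m : ℝ) t
      linarith
    · rw [min_eq_right hmc] at h5
      have := min_le_right (m : ℝ) t
      linarith

end TG9
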